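import Pool.Agent.Helper60.FM.Defs

/-!
# Statements over abstract number fields, and transport to subfields of `Qb`
-/

open NumberField Pointwise

namespace Pool.Agent.Helper60.FM

/-- All inertia groups of the number field `M` at its primes above `ℓ` are trivial (for `M`
Galois over `ℚ` this means that `M/ℚ` is unramified at `ℓ`). -/
def UnrField (M : Type) [Field M] [NumberField M] (ℓ : ℕ) : Prop :=
  ∀ P : Ideal (𝓞 M), P.IsPrime → (ℓ : 𝓞 M) ∈ P →
    ∀ σ : Gal(M/ℚ), (∀ x : 𝓞 M, σ • x - x ∈ P) → σ = 1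

/-- `V` is unramified at `ℓ`: all finite Galois extensions `M` of `ℚ` with an embedding `i` in
`Qb` whose image is fixed by `ker V` are unramified at `ℓ`. -/
def Unramified {H : Type*} [Group H] (V : GQ →* H) (ℓ : ℕ) : Prop :=
  ∀ (M : Type) [Field M] [NumberField M] [IsGalois ℚ M] (i : M →+* Qb),
    (∀ g ∈ V.ker, ∀ x, g (i x) = i x) → UnrField M ℓ

theorem unramAt_of_unramified {H : Type*} [Group H] (V : GQ →* H) (ℓ : ℕ) (h : Unramified V ℓ) :
    UnramAt V ℓ := by
  intro M hM hG hV
  refine h M (algebraMap M Qb) ?_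
  intro g hg x
  exact (IntermediateField.mem_fixingSubgroup_iff M g).1 (hV hg) x x.2

section

variable (K : Type) [Field K] [NumberField K] (j : K →+* Qb)

/-- the image of `K` in `Qb` -/
noncomputable def imField : IntermediateField ℚ Qb := j.toRatAlgHom.fieldRange

/-- the isomorphism of `K` with its image -/
noncomputable def eqv : K ≃+* imField K j :=
  (AlgEquiv.ofInjectiveField j.toRatAlgHom).toRingEquiv

theorem coe_eqv (x : K) : ((eqv K j x : imField K j) : Qb) = j x := rfl

/-- the isomorphism of `K` with its image as an isomorphism of `ℚ`-algebras -/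
noncomputable def aeqv : K ≃ₐ[ℚ] imField K j :=
  AlgEquiv.ofRingEquiv (f := eqv K j) (by
    intro x
    exact RingHom.congr_fun (Subsingleton.elim
      (((eqv K j) : K →+* imField K j).comp (algebraMap ℚ K)) (algebraMap ℚ (imField K j))) x)

theorem coe_aeqv (x : K) : ((aeqv K j x : imField K j) : Qb) = j x := rfl

instance finite_imField : FiniteDimensional ℚ (imField K j) :=
  LinearEquiv.finiteDimensional (aeqv K j).toLinearEquiv

instance galois_imField [IsGalois ℚ K] : IsGalois ℚ (imField K j) := IsGalois.of_algEquiv (aeqv K j)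

instance abelian_imField [IsAbelianGalois ℚ K] : IsAbelianGalois ℚ (imField K j) :=
  IsAbelianGalois.of_algHom (aeqv K j).symm.toAlgHom

/-- the isomorphism of Galois groups -/
noncomputable def geqv : Gal(K/ℚ) ≃* Gal(imField K j/ℚ) := AlgEquiv.autCongr (aeqv K j)

theorem geqv_apply (σ : Gal(K/ℚ)) (x : K) :
    geqv K j σ (aeqv K j x) = aeqv K j (σ x) := by
  change aeqv K j (σ ((aeqv K j).symm (aeqv K j x))) = _
  rw [AlgEquiv.symm_apply_apply]

theorem geqv_symm_apply (σ : Gal(imField K j/ℚ)) (x : K) :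
    aeqv K j ((geqv K j).symm σ x) = σ (aeqv K j x) := by
  rw [← geqv_apply, MulEquiv.apply_symm_apply]

/-- the isomorphism of rings of integers -/
noncomputable def oeqv : 𝓞 K ≃+* 𝓞 (imField K j) :=
  RingOfIntegers.mapRingEquiv (aeqv K j).toRingEquiv

theorem coe_oeqv (x : 𝓞 K) : ((oeqv K j x : 𝓞 (imField K j)) : imField K j) = aeqv K j x := rfl

theorem oeqv_smul (σ : Gal(K/ℚ)) (x : 𝓞 K) : oeqv K j (σ • x) = geqv K j σ • oeqv K j x := by
  apply RingOfIntegers.ext
  rw [coe_oeqv]
  change aeqv K j (σ (x : K)) = geqv K j σ (aeqv K j (x : K))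
  rw [geqv_apply]

theorem oeqv_symm_smul (σ : Gal(imField K j/ℚ)) (x : 𝓞 (imField K j)) :
    (oeqv K j).symm (σ • x) = (geqv K j).symm σ • (oeqv K j).symm x := by
  apply (oeqv K j).injective
  rw [RingEquiv.apply_symm_apply, oeqv_smul, RingEquiv.apply_symm_apply,
    MulEquiv.apply_symm_apply]

/-- ideals of `𝓞 (imField K j)` give ideals of `𝓞 K` -/
noncomputable def pull : Ideal (𝓞 (imField K j)) →+* Ideal (𝓞 K) :=
  Ideal.mapHom ((oeqv K j).symm : 𝓞 (imField K j) →+* 𝓞 K)

theorem mem_pull (I : Ideal (𝓞 (imField K j))) (x : 𝓞 K) : x ∈ pull K j I ↔ oeqv K j x ∈ I := by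
  change x ∈ Ideal.map (oeqv K j).symm I ↔ _
  rw [Ideal.mem_map_of_equiv]
  constructor
  · rintro ⟨y, hy, rfl⟩
    rw [RingEquiv.apply_symm_apply]
    exact hy
  · intro h
    exact ⟨_, h, RingEquiv.symm_apply_apply _ _⟩

theorem pull_smul (σ : Gal(imField K j/ℚ)) (I : Ideal (𝓞 (imField K j))) :
    pull K j (σ • I) = (geqv K j).symm σ • pull K j I := by
  ext x
  rw [mem_pull, Ideal.mem_pointwise_smul_iff_inv_smul_mem,
    Ideal.mem_pointwise_smul_iff_inv_smul_mem, mem_pull, oeqv_smul, map_inv,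
    MulEquiv.apply_symm_apply]

theorem pull_injective : Function.Injective (pull K j) := by
  intro I J h
  ext x
  obtain ⟨y, rfl⟩ := (oeqv K j).surjective x
  rw [← mem_pull, ← mem_pull, h]

theorem pull_isPrincipal (I : Ideal (𝓞 (imField K j))) :
    (pull K j I).IsPrincipal ↔ I.IsPrincipal := by
  constructor
  · rintro ⟨x, hx⟩
    refine ⟨oeqv K j x, ?_⟩
    apply pull_injective K j
    rw [hx]
    change Ideal.span {x} = Ideal.map ((oeqv K j).symm : 𝓞 (imField K j) →+* 𝓞 K)
      (Ideal.span {oeqv K j x})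
    rw [Ideal.map_span, Set.image_singleton]
    congr 2
    exact ((oeqv K j).symm_apply_apply x).symm
  · rintro ⟨x, hx⟩
    refine ⟨(oeqv K j).symm x, ?_⟩
    rw [hx]
    change Ideal.map ((oeqv K j).symm : 𝓞 (imField K j) →+* 𝓞 K) (Ideal.span {x}) =
      Ideal.span {(oeqv K j).symm x}
    rw [Ideal.map_span, Set.image_singleton]
    rfl

theorem pull_isPrime (P : Ideal (𝓞 (imField K j))) (hP : P.IsPrime) : (pull K j P).IsPrime := by
  have h : pull K j P = P.comap ((oeqv K j) : 𝓞 K →+* 𝓞 (imField K j)) := by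
    ext x
    rw [mem_pull]
    rfl
  rw [h]
  exact Ideal.comap_isPrime _ P

theorem pull_bot : pull K j ⊥ = ⊥ := by
  ext x
  rw [mem_pull, Ideal.mem_bot, Ideal.mem_bot]
  exact map_eq_zero_iff _ (oeqv K j).injective

theorem pull_ne_bot (I : Ideal (𝓞 (imField K j))) (h : I ≠ ⊥) : pull K j I ≠ ⊥ := by
  intro h1
  apply h
  apply pull_injective K j
  rw [h1, pull_bot]

theorem natCast_mem_pull (I : Ideal (𝓞 (imField K j))) (n : ℕ) (h : (n : 𝓞 (imField K j)) ∈ I) :
    (n : 𝓞 K) ∈ pull K j I := by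
  rw [mem_pull, map_natCast]
  exact h

/-- the restriction of `g` to the image of `K`, as an element of the Galois group of `K` -/
theorem geqv_symm_res [Normal ℚ (imField K j)] (g : GQ) (x : K) :
    j ((geqv K j).symm (res (imField K j) g) x) = g (j x) := by
  rw [← coe_aeqv, geqv_symm_apply]
  exact AlgEquiv.restrictNormal_commutes g (imField K j) (aeqv K j x)

end

end Pool.Agent.Helper60.FM
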