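import Pool.Agent.Helper60.FM.Defs

/-!
# Module A: from an irreducible residually reducible representation to an extension class

No Galois theory: `G` is any compact group. -/

open Matrix

namespace Pool.Agent.Helper60.FM

variable {E : Type*} [NormedField E] [IsUltrametricDist E] [CompleteSpace E]

section small

omit [CompleteSpace E]

theorem sm_add {x y : E} (hx : ‖x‖ < 1) (hy : ‖y‖ < 1) : ‖x + y‖ < 1 :=
  (IsUltrametricDist.norm_add_le_max x y).trans_lt (max_lt hx hy)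

omit [IsUltrametricDist E] in
theorem sm_neg {x : E} (hx : ‖x‖ < 1) : ‖-x‖ < 1 := by rwa [norm_neg]

theorem sm_sub {x y : E} (hx : ‖x‖ < 1) (hy : ‖y‖ < 1) : ‖x - y‖ < 1 := by
  rw [sub_eq_add_neg]
  exact sm_add hx (sm_neg hy)

omit [IsUltrametricDist E] in
theorem sm_mul_left {x y : E} (hx : ‖x‖ ≤ 1) (hy : ‖y‖ < 1) : ‖x * y‖ < 1 := by
  rw [norm_mul]
  calc ‖x‖ * ‖y‖ ≤ 1 * ‖y‖ := mul_le_mul_of_nonneg_right hx (norm_nonneg _)
    _ < 1 := by rwa [one_mul]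

omit [IsUltrametricDist E] in
theorem sm_mul_right {x y : E} (hx : ‖x‖ < 1) (hy : ‖y‖ ≤ 1) : ‖x * y‖ < 1 := by
  rw [mul_comm]
  exact sm_mul_left hy hx

theorem le_add' {x y : E} {r : ℝ} (hx : ‖x‖ ≤ r) (hy : ‖y‖ ≤ r) : ‖x + y‖ ≤ r :=
  (IsUltrametricDist.norm_add_le_max x y).trans (max_le hx hy)

theorem le_sub' {x y : E} {r : ℝ} (hx : ‖x‖ ≤ r) (hy : ‖y‖ ≤ r) : ‖x - y‖ ≤ r := by
  rw [sub_eq_add_neg]
  exact le_add' hx (by rwa [norm_neg])

/-- an element congruent to an element of norm one has norm one -/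
theorem norm_one_of_sub {x y : E} (hy : ‖y‖ = 1) (h : ‖x - y‖ < 1) : ‖x‖ = 1 := by
  refine le_antisymm ?_ ?_
  · have := le_add' h.le hy.le
    rwa [sub_add_cancel] at this
  · by_contra hx
    have h2 := sm_sub (not_le.1 hx) h
    rw [sub_sub_cancel, hy] at h2
    exact lt_irrefl _ h2

end small

/-- Hensel's lemma for a quadratic polynomial whose roots modulo the maximal ideal are distinct. -/
theorem exists_root_quadratic (t d c₁ c₂ : E) (h₁ : ‖c₁‖ = 1)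
    (ht : ‖t - c₁ - c₂‖ < 1) (hd : ‖d - c₁ * c₂‖ < 1) (hc : ‖c₁ - c₂‖ = 1) :
    ∃ l : E, l * l - t * l + d = 0 ∧ ‖l - c₁‖ < 1 := by
  set ρ : ℝ := max ‖t - c₁ - c₂‖ ‖d - c₁ * c₂‖ with hρ
  have hρ1 : ρ < 1 := max_lt ht hd
  have hρ0 : 0 ≤ ρ := (norm_nonneg _).trans (le_max_left _ _)
  have hu : c₁ - c₂ ≠ 0 := by
    intro h
    rw [h, norm_zero] at hc
    exact zero_ne_one hc
  set φ : E → E := fun x => x - (x * x - t * x + d) / (c₁ - c₂) with hφ
  have hlip : ∀ x y : E, ‖x - c₁‖ ≤ ρ → ‖y - c₁‖ ≤ ρ → ‖φ x - φ y‖ ≤ ρ * ‖x - y‖ := by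
    intro x y hx hy
    have e : φ x - φ y = -(((x - c₁) + (y - c₁) - (t - c₁ - c₂)) / (c₁ - c₂)) * (x - y) := by
      simp only [hφ]
      field_simp
      ring
    rw [e, norm_mul, norm_neg, norm_div, hc, div_one]
    refine mul_le_mul_of_nonneg_right ?_ (norm_nonneg _)
    exact le_sub' (le_add' hx hy) (le_max_left _ _)
  have hc1 : ‖φ c₁ - c₁‖ ≤ ρ := by
    have e : φ c₁ - c₁ = (c₁ * (t - c₁ - c₂) - (d - c₁ * c₂)) / (c₁ - c₂) := by
      simp only [hφ]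
      field_simp
      ring
    rw [e, norm_div, hc, div_one]
    refine le_sub' ?_ (le_max_right _ _)
    rw [norm_mul, h₁, one_mul]
    exact le_max_left _ _
  have hmaps : Set.MapsTo φ (Metric.closedBall c₁ ρ) (Metric.closedBall c₁ ρ) := by
    intro x hx
    rw [Metric.mem_closedBall, dist_eq_norm] at hx ⊢
    have e : φ x - c₁ = (φ x - φ c₁) + (φ c₁ - c₁) := by ring
    rw [e]
    refine le_add' ?_ hc1
    refine (hlip x c₁ hx (by rw [sub_self, norm_zero]; exact hρ0)).trans ?_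
    calc ρ * ‖x - c₁‖ ≤ 1 * ρ := mul_le_mul hρ1.le hx (norm_nonneg _) zero_le_one
      _ = ρ := one_mul _
  have hcomplete : IsComplete (Metric.closedBall c₁ ρ) := Metric.isClosed_closedBall.isComplete
  have hcontr : ContractingWith ⟨ρ, hρ0⟩ (hmaps.restrict φ _ _) := by
    refine ⟨by rw [← NNReal.coe_lt_coe]; exact hρ1, ?_⟩
    refine LipschitzWith.of_dist_le_mul fun x y => ?_
    rw [Subtype.dist_eq, Subtype.dist_eq, dist_eq_norm, dist_eq_norm]
    have hx := x.2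
    have hy := y.2
    rw [Metric.mem_closedBall, dist_eq_norm] at hx hy
    exact hlip x y hx hy
  obtain ⟨l, hl, hfix, -⟩ := ContractingWith.exists_fixedPoint' hcomplete hmaps hcontr
    (Metric.mem_closedBall_self hρ0) (edist_ne_top c₁ (φ c₁))
  refine ⟨l, ?_, ?_⟩
  · have h := hfix.eq
    simp only [hφ] at h
    rw [sub_eq_self, div_eq_zero_iff] at h
    exact h.resolve_right hu
  · rw [Metric.mem_closedBall, dist_eq_norm] at hl
    exact hl.trans_lt hρ1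

/-- Diagonalisation of a two by two matrix with two distinct eigenvalues. -/
theorem exists_diag {F : Type*} [Field F] (A : Matrix (Fin 2) (Fin 2) F) (l₁ l₂ : F)
    (hne : l₁ ≠ l₂) (ht : trace A = l₁ + l₂) (hd : det A = l₁ * l₂) :
    ∃ P : GL (Fin 2) F, A * (P : Matrix (Fin 2) (Fin 2) F)
      = (P : Matrix (Fin 2) (Fin 2) F) * !![l₁, 0; 0, l₂] := by
  have hroot : ∀ l : F, (l - l₁) * (l - l₂) = 0 → ∃ v : Fin 2 → F, v ≠ 0 ∧ A *ᵥ v = l • v := by
    intro l hl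
    have hdet : det (A - l • (1 : Matrix (Fin 2) (Fin 2) F)) = 0 := by
      rw [trace_fin_two] at ht
      rw [det_fin_two] at hd
      rw [det_fin_two]
      simp
      linear_combination hl + hd - l * ht
    obtain ⟨v, hv, hv2⟩ := exists_mulVec_eq_zero_iff.2 hdet
    refine ⟨v, hv, ?_⟩
    rw [sub_mulVec, smul_mulVec, one_mulVec, sub_eq_zero] at hv2
    exact hv2
  obtain ⟨v₁, hv₁, hA₁⟩ := hroot l₁ (by ring)
  obtain ⟨v₂, hv₂, hA₂⟩ := hroot l₂ (by ring)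
  have hP : det (!![v₁ 0, v₂ 0; v₁ 1, v₂ 1] : Matrix (Fin 2) (Fin 2) F) ≠ 0 := by
    intro h0
    obtain ⟨w, hw, hw2⟩ := exists_mulVec_eq_zero_iff.2 h0
    have hw3 : w 0 • v₁ + w 1 • v₂ = 0 := by
      funext i
      have := congrFun hw2 i
      fin_cases i
      · simp [mulVec, dotProduct, Fin.sum_univ_two] at this ⊢
        linear_combination this
      · simp [mulVec, dotProduct, Fin.sum_univ_two] at this ⊢
        linear_combination this
    have hw4 : w 0 • (l₁ • v₁) + w 1 • (l₂ • v₂) = 0 := by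
      have := congrArg (fun v => A *ᵥ v) hw3
      simp only [mulVec_add, mulVec_smul, mulVec_zero, hA₁, hA₂] at this
      exact this
    have hw5 : (w 1 * (l₂ - l₁)) • v₂ = 0 := by
      have e : (w 1 * (l₂ - l₁)) • v₂
          = (w 0 • (l₁ • v₁) + w 1 • (l₂ • v₂)) - l₁ • (w 0 • v₁ + w 1 • v₂) := by
        funext i
        simp only [Pi.smul_apply, Pi.add_apply, Pi.sub_apply, smul_eq_mul]
        ring
      rw [e, hw3, hw4, smul_zero, sub_zero]
    have hw1 : w 1 = 0 := by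
      rcases smul_eq_zero.1 hw5 with h | h
      · rcases mul_eq_zero.1 h with h | h
        · exact h
        · exact absurd (sub_eq_zero.1 h).symm hne
      · exact absurd h hv₂
    rw [hw1, zero_smul, add_zero] at hw3
    have hw0 : w 0 = 0 := (smul_eq_zero.1 hw3).resolve_right hv₁
    refine hw (funext fun i => ?_)
    fin_cases i
    · exact hw0
    · exact hw1
  refine ⟨GeneralLinearGroup.mkOfDetNeZero _ hP, ?_⟩
  have e : ((GeneralLinearGroup.mkOfDetNeZero _ hP : GL (Fin 2) F) : Matrix (Fin 2) (Fin 2) F)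
      = !![v₁ 0, v₂ 0; v₁ 1, v₂ 1] := rfl
  rw [e]
  ext i j
  have h1 := congrFun hA₁ i
  have h2 := congrFun hA₂ i
  simp only [mulVec, dotProduct, Fin.sum_univ_two, Pi.smul_apply, smul_eq_mul] at h1 h2
  fin_cases j
  · fin_cases i <;> simp [mul_apply, Fin.sum_univ_two] at h1 ⊢ <;> linear_combination h1
  · fin_cases i <;> simp [mul_apply, Fin.sum_univ_two] at h2 ⊢ <;> linear_combination h2

/-- `V : G → GL₂(E)` continuous, `G` compact, `tr V(g) ≡ χ₁(g) + χ₂(g)`, `|χᵢ| = 1`; `g₀` with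
`χ₁(g₀) ≢ χ₂(g₀)`; `N` normal with `χᵢ|N = 1` and `G/N` abelian.  If no line of `E²` is stable,
then there is an upper right entry `b` as follows. `|2| = 1` is not needed (the characteristic
polynomial of `V(g₀)` is controlled by the determinant, `det V ≡ χ₁χ₂`, which is assumed). -/
theorem exists_bdata {G : Type*} [Group G] [TopologicalSpace G] [IsTopologicalGroup G]
    [CompactSpace G] (V : G →* GL (Fin 2) E) (hV : Continuous V)
    (χ₁ χ₂ : G →* Eˣ) (h₁ : ∀ g, ‖(χ₁ g : E)‖ = 1) (h₂ : ∀ g, ‖(χ₂ g : E)‖ = 1)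
    (htr : ∀ g, ‖trace (V g : Matrix (Fin 2) (Fin 2) E) - χ₁ g - χ₂ g‖ < 1)
    (hdet : ∀ g, ‖det (V g : Matrix (Fin 2) (Fin 2) E) - χ₁ g * χ₂ g‖ < 1)
    (g₀ : G) (hg₀ : ‖(χ₁ g₀ : E) - χ₂ g₀‖ = 1)
    (N : Subgroup G) (hN₁ : ∀ k ∈ N, χ₁ k = 1) (hN₂ : ∀ k ∈ N, χ₂ k = 1)
    (hab : ∀ g h : G, g * h * g⁻¹ * h⁻¹ ∈ N)
    (hline : ¬ ∃ v : Fin 2 → E, v ≠ 0 ∧ ∀ g, ∃ c : E,
      (V g : Matrix (Fin 2) (Fin 2) E) *ᵥ v = c • v) :
    ∃ b : G → E, (∀ g, ‖b g‖ ≤ 1) ∧ (∃ k ∈ N, ‖b k‖ = 1) ∧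
      (∀ g h, ‖b (g * h) - ((χ₁ g : E) * b h + b g * χ₂ h)‖ < 1) ∧
      IsOpen {g : G | ‖b g‖ < 1 ∧ ‖(χ₁ g : E) - 1‖ < 1 ∧ ‖(χ₂ g : E) - 1‖ < 1} ∧
      (∀ g ∈ V.ker, ‖b g‖ < 1 ∧ ‖(χ₁ g : E) - 1‖ < 1 ∧ ‖(χ₂ g : E) - 1‖ < 1) := by
  classical
  set T : G → E := fun g => trace (V g : Matrix (Fin 2) (Fin 2) E) with hT
  obtain ⟨l₁, hl₁, hl₁c⟩ := exists_root_quadratic (T g₀)
    (det (V g₀ : Matrix (Fin 2) (Fin 2) E)) (χ₁ g₀ : E) (χ₂ g₀ : E) (h₁ g₀) (htr g₀) (hdet g₀) hg₀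
  set l₂ : E := T g₀ - l₁ with hl₂
  have hl₂c : ‖l₂ - χ₂ g₀‖ < 1 := by
    have e : l₂ - χ₂ g₀ = (T g₀ - χ₁ g₀ - χ₂ g₀) - (l₁ - χ₁ g₀) := by rw [hl₂]; ring
    rw [e]
    exact sm_sub (htr g₀) hl₁c
  have hl12 : ‖l₁ - l₂‖ = 1 := by
    refine norm_one_of_sub hg₀ ?_
    have e : l₁ - l₂ - (χ₁ g₀ - χ₂ g₀) = (l₁ - χ₁ g₀) - (l₂ - χ₂ g₀) := by ring
    rw [e]
    exact sm_sub hl₁c hl₂c
  have hl12' : l₁ - l₂ ≠ 0 := by
    intro h
    rw [h, norm_zero] at hl12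
    exact zero_ne_one hl12
  have hl₁n : ‖l₁‖ = 1 := norm_one_of_sub (h₁ g₀) hl₁c
  have hl₂n : ‖l₂‖ = 1 := norm_one_of_sub (h₂ g₀) hl₂c
  obtain ⟨P, hP⟩ := exists_diag (V g₀ : Matrix (Fin 2) (Fin 2) E) l₁ l₂ (sub_ne_zero.1 hl12')
    (by rw [hl₂]; ring) (by rw [hl₂]; linear_combination hl₁)
  -- the conjugated representation
  set W : G → Matrix (Fin 2) (Fin 2) E :=
    fun g => ((P⁻¹ * V g * P : GL (Fin 2) E) : Matrix (Fin 2) (Fin 2) E) with hW
  have hWmul : ∀ g h, W (g * h) = W g * W h := by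
    intro g h
    simp only [hW]
    rw [← Units.val_mul, map_mul]
    congr 1
    group
  have hWone : ∀ g, V g = 1 → W g = 1 := by
    intro g hg
    simp only [hW]
    rw [hg, mul_one, inv_mul_cancel, Units.val_one]
  have hPW : ∀ g, (V g : Matrix (Fin 2) (Fin 2) E) * (P : Matrix (Fin 2) (Fin 2) E)
      = (P : Matrix (Fin 2) (Fin 2) E) * W g := by
    intro g
    simp only [hW]
    rw [← Units.val_mul, ← Units.val_mul]
    congr 1
    group
  have hW0 : W g₀ = !![l₁, 0; 0, l₂] := by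
    have h := (hPW g₀).symm.trans hP
    have h2 := congrArg (fun M => ((P⁻¹ : GL (Fin 2) E) : Matrix (Fin 2) (Fin 2) E) * M) h
    simp only [← mul_assoc] at h2
    rw [← Units.val_mul, inv_mul_cancel, Units.val_one, one_mul, one_mul] at h2
    exact h2
  have hWtr : ∀ g, W g 0 0 + W g 1 1 = T g := by
    intro g
    have : trace (W g) = T g := by
      simp only [hW, hT, Units.val_mul]
      rw [trace_mul_comm, ← mul_assoc, ← Units.val_mul, mul_inv_cancel, Units.val_one, one_mul]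
    rw [← this, trace_fin_two]
  have hWcont : ∀ i j, Continuous fun g => W g i j := by
    intro i j
    have h1 : Continuous fun g => (V g : Matrix (Fin 2) (Fin 2) E) := Units.continuous_val.comp hV
    have h2 : Continuous W := by
      simp only [hW, Units.val_mul]
      exact (continuous_const.matrix_mul h1).matrix_mul continuous_const
    exact h2.matrix_elem i j
  -- the diagonal entries
  have hTl : ∀ g, ‖T g‖ ≤ 1 := by
    intro g
    have e : T g = (T g - χ₁ g - χ₂ g) + (χ₁ g + χ₂ g) := by ring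
    rw [e]
    exact le_add' (htr g).le (le_add' (h₁ g).le (h₂ g).le)
  have hT0 : ∀ g, T (g₀ * g) = l₁ * W g 0 0 + l₂ * W g 1 1 := by
    intro g
    rw [← hWtr, hWmul, hW0]
    simp [mul_apply, Fin.sum_univ_two]
  have hτ : ∀ g, ‖T g - χ₁ g - χ₂ g‖ < 1 := htr
  have ha : ∀ g, ‖W g 0 0 - χ₁ g‖ < 1 := by
    intro g
    have e : (l₁ - l₂) * (W g 0 0 - χ₁ g)
        = (T (g₀ * g) - χ₁ (g₀ * g) - χ₂ (g₀ * g)) - χ₂ g₀ * (T g - χ₁ g - χ₂ g)
          - (l₂ - χ₂ g₀) * χ₂ g - (l₂ - χ₂ g₀) * (T g - χ₁ g - χ₂ g) - (l₁ - χ₁ g₀) * χ₁ g := by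
      rw [map_mul, map_mul, Units.val_mul, Units.val_mul]
      linear_combination (-1 : E) * hT0 g - l₂ * hWtr g
    have h : ‖(l₁ - l₂) * (W g 0 0 - χ₁ g)‖ < 1 := by
      rw [e]
      refine sm_sub (sm_sub (sm_sub (sm_sub (hτ _) ?_) ?_) ?_) ?_
      · exact sm_mul_left (h₂ _).le (hτ _)
      · exact sm_mul_right hl₂c (h₂ _).le
      · exact sm_mul_right hl₂c (hτ _).le
      · exact sm_mul_right hl₁c (h₁ _).le
    rwa [norm_mul, hl12, one_mul] at h
  have hd : ∀ g, ‖W g 1 1 - χ₂ g‖ < 1 := by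
    intro g
    have e : W g 1 1 - χ₂ g = (T g - χ₁ g - χ₂ g) - (W g 0 0 - χ₁ g) := by
      rw [← hWtr]; ring
    rw [e]
    exact sm_sub (hτ g) (ha g)
  have han : ∀ g, ‖W g 0 0‖ = 1 := fun g => norm_one_of_sub (h₁ g) (ha g)
  have hdn : ∀ g, ‖W g 1 1‖ = 1 := fun g => norm_one_of_sub (h₂ g) (hd g)
  -- the upper right entry
  have hbne : ∃ g, W g 0 1 ≠ 0 := by
    by_contra hcon
    push Not at hcon
    refine hline ⟨(P : Matrix (Fin 2) (Fin 2) E) *ᵥ Pi.single 1 1, ?_, fun g => ⟨W g 1 1, ?_⟩⟩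
    · intro h0
      have h3 := congrArg
        (fun v => ((P⁻¹ : GL (Fin 2) E) : Matrix (Fin 2) (Fin 2) E) *ᵥ v) h0
      simp only [mulVec_mulVec, mulVec_zero] at h3
      rw [← Units.val_mul, inv_mul_cancel, Units.val_one, one_mulVec] at h3
      have := congrFun h3 1
      simp at this
    · rw [mulVec_mulVec, hPW g, ← mulVec_mulVec, ← mulVec_smul]
      congr 1
      funext i
      fin_cases i
      · simp [hcon g]
      · simp
  obtain ⟨g₁, -, hg₁⟩ := isCompact_univ.exists_isMaxOn (s := (Set.univ : Set G))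
    ⟨1, Set.mem_univ _⟩ (hWcont 0 1).norm.continuousOn
  have hmax : ∀ g, ‖W g 0 1‖ ≤ ‖W g₁ 0 1‖ := fun g => hg₁ (Set.mem_univ g)
  have hb1 : W g₁ 0 1 ≠ 0 := by
    obtain ⟨g, hg⟩ := hbne
    intro h0
    have := hmax g
    rw [h0, norm_zero] at this
    exact hg (norm_eq_zero.1 (le_antisymm this (norm_nonneg _)))
  have hb1' : 0 < ‖W g₁ 0 1‖ := norm_pos_iff.2 hb1
  set b : G → E := fun g => W g 0 1 / W g₁ 0 1 with hb
  have hble : ∀ g, ‖b g‖ ≤ 1 := by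
    intro g
    simp only [hb]
    rw [norm_div, div_le_one hb1']
    exact hmax g
  have hbg₁ : b g₁ = 1 := div_self hb1
  have hbmul : ∀ g h, b (g * h) = W g 0 0 * b h + b g * W h 1 1 := by
    intro g h
    simp only [hb]
    rw [hWmul, mul_apply, Fin.sum_univ_two]
    ring
  have hbg₀ : b g₀ = 0 := by
    simp only [hb]
    rw [hW0]
    simp
  have hset : {g : G | ‖b g‖ < 1 ∧ ‖(χ₁ g : E) - 1‖ < 1 ∧ ‖(χ₂ g : E) - 1‖ < 1}
      = {g : G | ‖b g‖ < 1 ∧ ‖W g 0 0 - 1‖ < 1 ∧ ‖W g 1 1 - 1‖ < 1} := by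
    have hiff : ∀ x y : E, ‖x - y‖ < 1 → (‖y - 1‖ < 1 ↔ ‖x - 1‖ < 1) := by
      intro x y hxy
      constructor
      · intro h
        have := sm_add hxy h
        rwa [sub_add_sub_cancel] at this
      · intro h
        have := sm_sub h hxy
        rwa [sub_sub_sub_cancel_left] at this
    ext g
    show (‖b g‖ < 1 ∧ ‖(χ₁ g : E) - 1‖ < 1 ∧ ‖(χ₂ g : E) - 1‖ < 1)
      ↔ (‖b g‖ < 1 ∧ ‖W g 0 0 - 1‖ < 1 ∧ ‖W g 1 1 - 1‖ < 1)
    rw [hiff _ _ (ha g), hiff _ _ (hd g)]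
  refine ⟨b, hble, ?_, ?_, ?_, ?_⟩
  · by_contra hcon
    push Not at hcon
    have hlt : ∀ k ∈ N, ‖b k‖ < 1 := fun k hk => lt_of_le_of_ne (hble k) (hcon k hk)
    set k : G := g₁ * g₀ * g₁⁻¹ * g₀⁻¹ with hk
    have hkN : k ∈ N := hab g₁ g₀
    have hkey : k * (g₀ * g₁) = g₁ * g₀ := by rw [hk]; group
    have e1 : b (g₁ * g₀) = b g₁ * l₂ := by
      rw [hbmul, hbg₀, mul_zero, zero_add, hW0]
      simp
    have e2 : b (g₀ * g₁) = l₁ * b g₁ := by
      rw [hbmul, hbg₀, zero_mul, add_zero, hW0]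
      simp
    have e3 : b g₁ * (l₂ - l₁) = (W k 0 0 - 1) * (l₁ * b g₁) + b k * W (g₀ * g₁) 1 1 := by
      have h := hbmul k (g₀ * g₁)
      rw [hkey, e1, e2] at h
      linear_combination h
    have h4 : ‖W k 0 0 - 1‖ < 1 := by
      have h := ha k
      rw [hN₁ k hkN, Units.val_one] at h
      exact h
    have h5 : ‖b g₁ * (l₂ - l₁)‖ < 1 := by
      rw [e3]
      refine sm_add (sm_mul_right h4 ?_) (sm_mul_right (hlt k hkN) (hdn _).le)
      rw [norm_mul, hl₁n, one_mul]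
      exact hble g₁
    rw [hbg₁, one_mul, norm_sub_rev, hl12] at h5
    exact lt_irrefl _ h5
  · intro g h
    have e : b (g * h) - ((χ₁ g : E) * b h + b g * χ₂ h)
        = (W g 0 0 - χ₁ g) * b h + b g * (W h 1 1 - χ₂ h) := by
      rw [hbmul]; ring
    rw [e]
    exact sm_add (sm_mul_right (ha g) (hble h)) (sm_mul_left (hble g) (hd h))
  · rw [hset]
    have hc1 : Continuous fun g => ‖b g‖ := ((hWcont 0 1).div_const _).norm
    have hc2 : Continuous fun g => ‖W g 0 0 - 1‖ := ((hWcont 0 0).sub continuous_const).norm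
    have hc3 : Continuous fun g => ‖W g 1 1 - 1‖ := ((hWcont 1 1).sub continuous_const).norm
    exact (isOpen_lt hc1 continuous_const).inter
      ((isOpen_lt hc2 continuous_const).inter (isOpen_lt hc3 continuous_const))
  · intro g hg
    have hW1 : W g = 1 := hWone g ((MonoidHom.mem_ker).1 hg)
    have h3 : g ∈ {g : G | ‖b g‖ < 1 ∧ ‖W g 0 0 - 1‖ < 1 ∧ ‖W g 1 1 - 1‖ < 1} := by
      show ‖b g‖ < 1 ∧ ‖W g 0 0 - 1‖ < 1 ∧ ‖W g 1 1 - 1‖ < 1
      simp only [hb]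
      rw [hW1]
      simp
    rw [← hset] at h3
    exact h3

end Pool.Agent.Helper60.FM
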