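import Pool.Agent.Helper60.FM.Defs

/-!
# Module C1: valuations of Kummer generators
-/

open NumberField Pointwise IsDedekindDomain

namespace Pool.Agent.Helper60.FM

/-- Unramified case: `K ≤ N` finite Galois over `ℚ`, `w` a prime of `N` over the prime `v` of `K`,
such that an inertia element of `Gal(N/ℚ)` at `w` which is trivial on `K` is trivial.  If
`β ^ p = α` with `β ∈ N`, `α ∈ K`, then `p ∣ v(α)`. -/
theorem val_of_unram {p : ℕ} {K N : Type*} [Field K] [Field N] [NumberField K] [NumberField N]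
    [Algebra K N] [IsGalois ℚ K] [IsGalois ℚ N]
    (v : HeightOneSpectrum (𝓞 K)) (w : HeightOneSpectrum (𝓞 N)) [w.asIdeal.LiesOver v.asIdeal]
    (h : ∀ σ : Gal(N/ℚ), (∀ x : 𝓞 N, σ • x - x ∈ w.asIdeal) →
      (∀ x : K, σ (algebraMap K N x) = algebraMap K N x) → σ = 1)
    (α : K) (hα : α ≠ 0) (β : N) (hβ : β ^ p = algebraMap K N α) :
    ∃ m : ℤ, v.valuation K α = WithZero.exp ((p : ℤ) * m) := by
  have hGal : IsGalois K N := IsGalois.tower_top_of_isGalois ℚ K N
  have hvp : v.asIdeal.IsPrime := v.isPrime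
  have hvm : v.asIdeal.IsMaximal := v.isMaximal
  have hwp : w.asIdeal.IsPrime := w.isPrime
  have hfin : Finite (𝓞 K ⧸ v.asIdeal) := Ring.HasFiniteQuotients.finiteQuotient v.ne_bot
  -- the inertia group of `w` in `Gal(N/K)` is trivial
  have hin : Ideal.inertia Gal(N/K) w.asIdeal = ⊥ := by
    rw [eq_bot_iff]
    intro σ hσ
    rw [Subgroup.mem_bot]
    have h1 : AlgEquiv.restrictScalars ℚ σ = 1 := by
      apply h
      · intro x
        exact hσ x
      · intro x
        exact σ.commutes x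
    ext x
    exact DFunLike.congr_fun h1 x
  have hcard : Nat.card (Ideal.inertia Gal(N/K) w.asIdeal) = 1 := by
    rw [hin]; simp
  have he : Ideal.ramificationIdx' v.asIdeal w.asIdeal = 1 := by
    rw [Ideal.ramificationIdx'_eq_ramificationIdx _ _ v.ne_bot,
      ← Ideal.ramificationIdxIn_eq_ramificationIdx v.asIdeal w.asIdeal Gal(N/K),
      ← Ideal.card_inertia_eq_ramificationIdxIn (G := Gal(N/K)) v.asIdeal w.asIdeal, hcard]
  have hval := HeightOneSpectrum.valuation_liesOver (K := K) N v w α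
  rw [he, pow_one, ← hβ, map_pow] at hval
  rcases Nat.eq_zero_or_pos p with rfl | hp
  · refine ⟨0, ?_⟩
    rw [hval, pow_zero, mul_zero, WithZero.exp_zero]
  have hβ0 : β ≠ 0 := by
    rintro rfl
    rw [zero_pow hp.ne'] at hβ
    exact hα ((algebraMap K N).injective (by rw [← hβ, map_zero]))
  have hw0 : w.valuation N β ≠ 0 := (Valuation.ne_zero_iff _).2 hβ0
  refine ⟨WithZero.log (w.valuation N β), ?_⟩
  rw [hval]
  conv_lhs => rw [← WithZero.exp_log hw0]
  rw [← WithZero.exp_nsmul, nsmul_eq_mul]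

theorem C1b_normal_congr {A : Type*} [Field A] (i j : Algebra ℚ A) (h : @Normal ℚ A _ _ i) :
    @Normal ℚ A _ _ j := by
  have e : i = j := Subsingleton.elim _ _
  rwa [← e]

theorem C1b_isAlgClosure : IsAlgClosure ℚ Qb := inferInstance

theorem C1b_normal : Normal ℚ Qb :=
  have := C1b_isAlgClosure
  inferInstance

theorem C1b_isGalois : IsGalois ℚ Qb :=
  have := C1b_isAlgClosure
  inferInstance

theorem C1b_normal_sup (K M : IntermediateField ℚ Qb) [IsGalois ℚ K] [IsGalois ℚ M] :
    Normal ℚ ↥(K ⊔ M) := by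
  have h1 : @Normal ℚ K _ _ K.algebra' := C1b_normal_congr _ _ (inferInstance : Normal ℚ K)
  have h2 : @Normal ℚ M _ _ M.algebra' := C1b_normal_congr _ _ (inferInstance : Normal ℚ M)
  exact C1b_normal_congr _ _ (@IntermediateField.normal_sup _ _ _ _ _ K M h1 h2)

/-- The form used: `K, M` finite Galois over `ℚ`, `β ∈ Qb` fixed by everything that fixes
`K` and `M`, `β ^ p = α ∈ K`, `M/ℚ` unramified at `ℓ`; then `p ∣ v(α)` for all `v ∣ ℓ`. -/
theorem val_of_unr {p : ℕ} (K M : IntermediateField ℚ Qb) [FiniteDimensional ℚ K]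
    [FiniteDimensional ℚ M] [IsGalois ℚ K] [IsGalois ℚ M] (ℓ : ℕ) (hM : Unr M ℓ)
    (α : K) (hα : α ≠ 0) (β : Qb) (hβ : β ^ p = (α : Qb))
    (hfix : ∀ g ∈ K.fixingSubgroup ⊓ M.fixingSubgroup, g β = β)
    (v : HeightOneSpectrum (𝓞 K)) (hv : (ℓ : 𝓞 K) ∈ v.asIdeal) :
    ∃ m : ℤ, v.valuation K α = WithZero.exp ((p : ℤ) * m) := by
  set N : IntermediateField ℚ Qb := K ⊔ M with hN
  have : Normal ℚ Qb := C1b_normal
  have : IsGalois ℚ Qb := C1b_isGalois
  have : Normal ℚ N := C1b_normal_sup K M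
  have : IsGalois ℚ N := {}
  have hKN : K ≤ N := le_sup_left
  have hMN : M ≤ N := le_sup_right
  let algKN : Algebra K N := (IntermediateField.inclusion hKN).toRingHom.toAlgebra
  let algMN : Algebra M N := (IntermediateField.inclusion hMN).toRingHom.toAlgebra
  have eK : ∀ x : K, ((algebraMap K N x : N) : Qb) = (x : Qb) := fun x => rfl
  have eM : ∀ x : M, ((algebraMap M N x : N) : Qb) = (x : Qb) := fun x => rfl
  have hβN : β ∈ N := by
    have h1 : IntermediateField.fixedField N.fixingSubgroup = N :=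
      InfiniteGalois.fixedField_fixingSubgroup N
    rw [← h1, IntermediateField.mem_fixedField_iff]
    intro g hg
    exact hfix g (by rwa [hN, IntermediateField.fixingSubgroup_sup] at hg)
  obtain ⟨w, hwmax, hwv⟩ :=
    Ideal.exists_maximal_ideal_liesOver_of_isIntegral (S := 𝓞 N) v.asIdeal
  have hw0 : w ≠ ⊥ := by
    intro h0
    apply v.ne_bot
    rw [hwv.over, h0]
    exact Ideal.comap_bot_of_injective _ (FaithfulSMul.algebraMap_injective (𝓞 K) (𝓞 N))
  let w' : HeightOneSpectrum (𝓞 N) := ⟨w, hwmax.isPrime, hw0⟩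
  have : w'.asIdeal.LiesOver v.asIdeal := hwv
  refine val_of_unram v w' ?_ α hα ⟨β, hβN⟩ ?_
  · intro σ hσ hσK
    obtain ⟨g, rfl⟩ := AlgEquiv.restrictNormalHom_surjective (F := ℚ) (K₁ := N) Qb σ
    have hgN : ∀ x : N, ((res N g x : N) : Qb) = g (x : Qb) := fun x =>
      AlgEquiv.restrictNormal_commutes g N x
    have hgM : ∀ x : M, ((res M g x : M) : Qb) = g (x : Qb) := fun x =>
      AlgEquiv.restrictNormal_commutes g M x
    have hgK : g ∈ K.fixingSubgroup := by
      rw [IntermediateField.mem_fixingSubgroup_iff]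
      intro x hx
      have h1 := hσK ⟨x, hx⟩
      have h2 := congrArg (fun y : N => (y : Qb)) h1
      have h3 := hgN (algebraMap K N ⟨x, hx⟩)
      exact h3.symm.trans h2
    let P : Ideal (𝓞 M) := w.comap (algebraMap (𝓞 M) (𝓞 N))
    have hP : P.IsPrime := Ideal.IsPrime.comap _
    have hlP : (ℓ : 𝓞 M) ∈ P := by
      rw [Ideal.mem_comap, map_natCast]
      have h1 : algebraMap (𝓞 K) (𝓞 N) (ℓ : 𝓞 K) ∈ w := by
        have : (ℓ : 𝓞 K) ∈ w.under (𝓞 K) := by
          rw [← hwv.over]
          exact hv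
        exact this
      rwa [map_natCast] at h1
    have hτ : res M g = 1 := by
      refine hM P hP hlP (res M g) fun x => ?_
      have h1 := hσ (algebraMap (𝓞 M) (𝓞 N) x)
      have h2 : algebraMap (𝓞 M) (𝓞 N) (res M g • x - x) =
          res N g • algebraMap (𝓞 M) (𝓞 N) x - algebraMap (𝓞 M) (𝓞 N) x := by
        rw [map_sub]
        congr 1
        apply RingOfIntegers.ext
        apply Subtype.ext
        have h3 := hgM (x : M)
        have h4 := hgN ((algebraMap (𝓞 M) (𝓞 N) x : 𝓞 N) : N)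
        exact h3.trans h4.symm
      rw [Ideal.mem_comap, h2]
      exact h1
    have hgMf : g ∈ M.fixingSubgroup := by
      rw [IntermediateField.mem_fixingSubgroup_iff]
      intro x hx
      have h1 := hgM ⟨x, hx⟩
      rw [hτ] at h1
      exact h1.symm
    have hgf : g ∈ N.fixingSubgroup := by
      rw [hN, IntermediateField.fixingSubgroup_sup]
      exact ⟨hgK, hgMf⟩
    rw [IntermediateField.mem_fixingSubgroup_iff] at hgf
    ext x
    rw [AlgEquiv.one_apply]
    exact (hgN x).trans (hgf x x.2)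
  · apply Subtype.ext
    exact hβ

/-- If all valuations of an integral `α ≠ 0` are divisible by `p` then `(α) = 𝔞 ^ p`. -/
theorem exists_ideal_pow {p : ℕ} {K : Type*} [Field K] [NumberField K]
    (α : 𝓞 K) (hα : α ≠ 0)
    (h : ∀ v : HeightOneSpectrum (𝓞 K), ∃ m : ℤ,
      v.valuation K (α : K) = WithZero.exp ((p : ℤ) * m)) :
    ∃ 𝔞 : Ideal (𝓞 K), 𝔞 ^ p = Ideal.span {α} := by
  have hI : Ideal.span {α} ≠ (0 : Ideal (𝓞 K)) := by
    simpa using hα
  set c : HeightOneSpectrum (𝓞 K) → ℕ := fun v =>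
    (Associates.mk v.asIdeal).count (Associates.mk (Ideal.span {α})).factors with hc
  have hdvd : ∀ v, p ∣ c v := by
    intro v
    obtain ⟨m, hm⟩ := h v
    rw [HeightOneSpectrum.valuation_of_algebraMap,
      HeightOneSpectrum.intValuation_if_neg v hα] at hm
    have h1 := WithZero.exp_injective hm
    have h2 : ((c v : ℕ) : ℤ) = p * (-m) := by
      simp only [hc]
      linarith
    exact Int.natCast_dvd_natCast.mp ⟨-m, h2⟩
  have hfin : Function.HasFiniteMulSupport
      (fun v : HeightOneSpectrum (𝓞 K) => v.asIdeal ^ (c v / p)) := by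
    refine Set.Finite.subset (Ideal.hasFiniteMulSupport hI) ?_
    intro v hv
    rw [Function.mem_mulSupport] at hv ⊢
    intro h1
    apply hv
    have h2 : v.asIdeal ^ c v = 1 := h1
    have h3 : c v = 0 := by
      by_contra h0
      have h4 : v.asIdeal = ⊤ := by
        rw [eq_top_iff, ← Ideal.one_eq_top, ← h2]
        exact Ideal.pow_le_self h0
      exact v.isPrime.ne_top h4
    rw [h3, Nat.zero_div, pow_zero]
  refine ⟨∏ᶠ v : HeightOneSpectrum (𝓞 K), v.asIdeal ^ (c v / p), ?_⟩
  rw [finprod_pow hfin]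
  conv_rhs => rw [← Ideal.finprod_heightOneSpectrum_factorization hI]
  refine finprod_congr fun v => ?_
  rw [← pow_mul, Nat.div_mul_cancel (hdvd v)]
  rfl

/-- invariance of the valuation under the decomposition group -/
theorem valuation_smul_of_stab {K : Type*} [Field K] [NumberField K]
    (σ : Gal(K/ℚ)) (v : HeightOneSpectrum (𝓞 K)) (hσ : σ • v.asIdeal = v.asIdeal) (x : K) :
    v.valuation K (σ x) = v.valuation K x := by
  have hpow : ∀ n : ℕ, σ • (v.asIdeal ^ n) = v.asIdeal ^ n := by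
    intro n
    rw [smul_pow', hσ]
  have hint : ∀ a : 𝓞 K, v.intValuation (σ • a) = v.intValuation a := by
    intro a
    by_cases ha : a = 0
    · simp [ha]
    have key : ∀ n : ℕ, σ • a ∈ v.asIdeal ^ n ↔ a ∈ v.asIdeal ^ n := by
      intro n
      conv_lhs => rw [← hpow n]
      exact Ideal.smul_mem_pointwise_smul_iff
    have ha' : σ • a ≠ 0 := by
      intro h0
      apply ha
      have := congrArg (fun y => σ⁻¹ • y) h0
      simpa using this
    have hle : ∀ x y : 𝓞 K, x ≠ 0 → y ≠ 0 →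
        (∀ n : ℕ, y ∈ v.asIdeal ^ n → x ∈ v.asIdeal ^ n) →
        v.intValuation x ≤ v.intValuation y := by
      intro x y hx hy hxy
      rw [HeightOneSpectrum.intValuation_if_neg v hy]
      rw [HeightOneSpectrum.intValuation_le_pow_iff_mem]
      apply hxy
      rw [← HeightOneSpectrum.intValuation_le_pow_iff_mem,
        HeightOneSpectrum.intValuation_if_neg v hy]
    exact le_antisymm (hle _ _ ha' ha fun n hn => (key n).mpr hn)
      (hle _ _ ha ha' fun n hn => (key n).mp hn)
  obtain ⟨a, b, hb, rfl⟩ := IsFractionRing.div_surjective (A := 𝓞 K) x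
  have h1 : ∀ a : 𝓞 K, σ (algebraMap (𝓞 K) K a) = algebraMap (𝓞 K) K (σ • a) := fun a => rfl
  rw [map_div₀, map_div₀, map_div₀, h1, h1, HeightOneSpectrum.valuation_of_algebraMap,
    HeightOneSpectrum.valuation_of_algebraMap, HeightOneSpectrum.valuation_of_algebraMap,
    HeightOneSpectrum.valuation_of_algebraMap, hint, hint]

end Pool.Agent.Helper60.FM
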