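import Pool.Agent.Helper60.FM.ModB
import Pool.Agent.Helper60.FM.ModC1

/-!
# Module C2: the Kummer generator is a root of unity
-/

open NumberField Pointwise IsDedekindDomain

namespace Pool.Agent.Helper60.FM

theorem exists_prime_mem {K : Type*} [Field K] [NumberField K] (P : Ideal (𝓞 K)) [P.IsPrime]
    (hP : P ≠ ⊥) : ∃ ℓ : ℕ, ℓ.Prime ∧ (ℓ : 𝓞 K) ∈ P := by
  have : NeZero P := ⟨hP⟩
  exact ⟨_, Nat.absNorm_under_prime P, Int.absNorm_under_mem P⟩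

theorem ideal_pow_inj {K : Type*} [Field K] [NumberField K] {I J : Ideal (𝓞 K)} {n : ℕ}
    (hn : n ≠ 0) (h : I ^ n = J ^ n) : I = J := by
  apply le_antisymm
  · rw [← Ideal.dvd_iff_le]
    exact (UniqueFactorizationMonoid.pow_dvd_pow_iff_dvd hn).1 (dvd_of_eq h.symm)
  · rw [← Ideal.dvd_iff_le]
    exact (UniqueFactorizationMonoid.pow_dvd_pow_iff_dvd hn).1 (dvd_of_eq h)

theorem smul_ideal_pow {K : Type*} [Field K] [NumberField K] (σ : Gal(K/ℚ)) (I : Ideal (𝓞 K))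
    (n : ℕ) : σ • (I ^ n) = (σ • I) ^ n := by
  simp only [Ideal.pointwise_smul_def, Ideal.map_pow]

theorem smul_ideal_span {K : Type*} [Field K] [NumberField K] (σ : Gal(K/ℚ)) (x : 𝓞 K) :
    σ • (Ideal.span {x}) = Ideal.span {σ • x} := by
  simp only [Ideal.pointwise_smul_def, Ideal.map_span, Set.image_singleton]
  rfl

namespace KData

variable {p : ℕ} [hp : Fact p.Prime] {K : IntermediateField ℚ Qb} [FiniteDimensional ℚ K]
  [IsGalois ℚ K] {ω : Gal(K/ℚ) → ℕ} {R : Type*} [CommRing R] [IsDomain R]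
  (D : KData p K ω R) (ζ : K)

theorem F_p (k : GQ) (y : R) : D.F k ((p : R) * y) = 0 := by
  rw [← nsmul_eq_mul, map_nsmul, nsmul_eq_mul, CharP.cast_eq_zero, zero_mul]

theorem pow_mem_of_ty (hζ : IsPrimitiveRoot ζ p) {x : Qb} {y : R} (h : D.Ty ζ x y) :
    x ^ p ∈ K := by
  apply D.mem_of_ty ζ hζ
  intro k hk
  have := D.ty_pow ζ hζ h p k hk
  rw [D.F_p] at this
  rw [map_zero, this]

/-- valuations of the Kummer generator at the primes above `S` -/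
theorem val_dec (hζ : IsPrimitiveRoot ζ p) (hω : ∀ σ : Gal(K/ℚ), σ ζ = ζ ^ ω σ)
    (v : HeightOneSpectrum (𝓞 K)) (σ : Gal(K/ℚ)) (hσ : σ • v.asIdeal = v.asIdeal)
    (hψ : D.ψ σ ≠ 1) (β : Qb) (hβ0 : β ≠ 0) (hβ : D.Ty ζ β 1) (α : K) (hα : (α : Qb) = β ^ p) :
    ∃ m : ℤ, v.valuation K α = WithZero.exp ((p : ℤ) * m) := by
  obtain ⟨g, rfl⟩ := AlgEquiv.restrictNormalHom_surjective (F := ℚ) (K₁ := K) Qb σ
  set z : R := D.ψ (res K g) - 1 with hz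
  have hz0 : z ≠ 0 := sub_ne_zero.2 hψ
  have hzc : z ∈ Subring.closure (Set.range D.ψ) :=
    Subring.sub_mem _ (Subring.subset_closure ⟨_, rfl⟩) (Subring.one_mem _)
  obtain ⟨n, hn, hzn⟩ := D.fo z hzc hz0
  let x : ℕ → Qb := fun j => Nat.rec β (fun _ y => g y * y⁻¹) j
  have hx0 : x 0 = β := rfl
  have hxs : ∀ j, x (j + 1) = g (x j) * (x j)⁻¹ := fun j => rfl
  have hxne : ∀ j, x j ≠ 0 := by
    intro j
    induction j with
    | zero => exact hβ0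
    | succ j ih =>
      rw [hxs]
      exact mul_ne_zero ((map_ne_zero g).2 ih) (inv_ne_zero ih)
  have hxty : ∀ j, D.Ty ζ (x j) (z ^ j) := by
    intro j
    induction j with
    | zero => rw [pow_zero, hx0]; exact hβ
    | succ j ih =>
      have h1 := D.ty_mul ζ hζ (D.ty_smul ζ hζ hω ih g) (D.ty_inv ζ hζ ih)
      rw [hxs, pow_succ']
      have h2 : z * z ^ j = D.ψ (res K g) * z ^ j + -z ^ j := by rw [hz]; ring
      rw [h2]
      exact h1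
  -- p-th powers
  let a : ℕ → K := fun j => ⟨(x j) ^ p, D.pow_mem_of_ty ζ hζ (hxty j)⟩
  have ha0 : a 0 = α := Subtype.ext hα.symm
  have has : ∀ j, a (j + 1) = res K g (a j) * (a j)⁻¹ := by
    intro j
    apply Subtype.ext
    have h1 : ((res K g (a j) : K) : Qb) = g ((x j) ^ p) := coe_res K g (a j)
    push_cast
    rw [h1]
    change (x (j + 1)) ^ p = g ((x j) ^ p) * ((x j) ^ p)⁻¹
    rw [hxs, mul_pow, map_pow, inv_pow]
  have hane : ∀ j, a j ≠ 0 := by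
    intro j h
    have : (x j) ^ p = 0 := congrArg Subtype.val h
    exact pow_ne_zero _ (hxne j) this
  have hval : ∀ j, v.valuation K (a (j + 1)) = 1 := by
    intro j
    rw [has, map_mul, map_inv₀]
    have h1 := valuation_smul_of_stab (res K g) v hσ (a j)
    rw [h1]
    exact mul_inv_cancel₀ ((Valuation.ne_zero_iff _).2 (hane j))
  -- the quotient
  have hκ : x n * β⁻¹ ∈ K := by
    apply D.mem_of_ty ζ hζ
    have h1 := D.ty_mul ζ hζ (hxty n) (D.ty_inv ζ hζ hβ)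
    rwa [hzn, add_neg_cancel] at h1
  obtain ⟨m, rfl⟩ : ∃ m, n = m + 1 := ⟨n - 1, by omega⟩
  let κ : K := ⟨x (m + 1) * β⁻¹, hκ⟩
  have hκ0 : κ ≠ 0 := by
    intro h
    have h2 : x (m + 1) * β⁻¹ = 0 := congrArg Subtype.val h
    exact (mul_ne_zero (hxne (m + 1)) (inv_ne_zero hβ0)) h2
  have hακ : a (m + 1) = κ ^ p * α := by
    apply Subtype.ext
    push_cast
    rw [hα]
    change (x (m + 1)) ^ p = (x (m + 1) * β⁻¹) ^ p * β ^ p
    rw [← mul_pow, inv_mul_cancel_right₀ hβ0]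
  have h3 : v.valuation K κ ^ p * v.valuation K α = 1 := by
    rw [← map_pow, ← map_mul, ← hακ, hval]
  have hvκ : v.valuation K κ ≠ 0 := (Valuation.ne_zero_iff _).2 hκ0
  refine ⟨-(WithZero.log (v.valuation K κ)), ?_⟩
  have h4 : v.valuation K α = (v.valuation K κ ^ p)⁻¹ := by
    rw [eq_comm]
    exact inv_eq_of_mul_eq_one_right h3
  rw [h4]
  conv_lhs => rw [← WithZero.exp_log hvκ]
  rw [← WithZero.exp_nsmul, ← WithZero.exp_neg]
  congr 1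
  simp

/-- Core theorem. -/
theorem exists_eta [IsCMField K] (hp2 : p ≠ 2)
    (hζ : IsPrimitiveRoot ζ p) (hω : ∀ σ : Gal(K/ℚ), σ ζ = ζ ^ ω σ)
    (hc : ∀ c : Gal(K/ℚ), (∀ x : K, c x = IsCMField.complexConj K x) → D.ψ c = -1)
    (M : IntermediateField ℚ Qb) [FiniteDimensional ℚ M] [IsGalois ℚ M]
    (hM : ∀ k ∈ K.fixingSubgroup ⊓ M.fixingSubgroup, ∀ y, D.F k y = 0)
    (S : Set ℕ) (hS : ∀ ℓ : ℕ, ℓ.Prime → ℓ ∉ S → Unr M ℓ)
    (hdec : ∀ P : Ideal (𝓞 K), P.IsPrime → P ≠ ⊥ → (∃ ℓ ∈ S, (ℓ : 𝓞 K) ∈ P) →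
      ∃ σ : Gal(K/ℚ), σ • P = P ∧ D.ψ σ ≠ 1)
    (hcl : ∀ 𝔞 : Ideal (𝓞 K), 𝔞 ≠ ⊥ → (𝔞 ^ p).IsPrincipal →
      (∀ n : Gal(K/ℚ) → ℕ, ∑ σ, (n σ : R) * D.ψ σ = 0 → (∏ σ, (σ • 𝔞) ^ n σ).IsPrincipal) →
      𝔞.IsPrincipal) :
    ∃ (η : Qb) (m : ℕ), 0 < m ∧ η ^ m = 1 ∧ D.Ty ζ η 2 := by
  classical
  have hppos : 0 < p := hp.out.pos
  obtain ⟨β₀, hβ₀0, hβ₀⟩ := D.exists_beta ζ hζ M hM
  -- scaling to an integral generator
  obtain ⟨β, α, hβ0, hβ, hα⟩ : ∃ (β : Qb) (α : 𝓞 K), β ≠ 0 ∧ D.Ty ζ β 1 ∧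
      ((α : K) : Qb) = β ^ p := by
    obtain ⟨a, b, hb, hab⟩ := IsFractionRing.div_surjective (A := 𝓞 K)
      (⟨β₀ ^ p, D.pow_mem_of_ty ζ hζ hβ₀⟩ : K)
    have hb0 : b ≠ 0 := nonZeroDivisors.ne_zero hb
    have hbK : (b : K) ≠ 0 := by simpa using hb0
    have hbQ : ((b : K) : Qb) ≠ 0 := by simpa using hbK
    have hab' : β₀ ^ p = ((a : K) : Qb) / ((b : K) : Qb) := by
      have := congrArg (Subtype.val) hab
      exact this.symm
    refine ⟨((b : K) : Qb) * β₀, a * b ^ (p - 1), mul_ne_zero hbQ hβ₀0, ?_, ?_⟩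
    · have h1 := D.ty_mul ζ hζ (D.ty_of_mem ζ hζ (x := ((b : K) : Qb)) (b : K).2) hβ₀
      rwa [zero_add] at h1
    · rw [mul_pow, hab']
      push_cast
      have h2 : ((b : K) : Qb) ^ p = ((b : K) : Qb) ^ (p - 1) * ((b : K) : Qb) := by
        rw [← pow_succ, Nat.sub_add_cancel hppos]
      rw [h2]
      field_simp
  have hα0 : α ≠ 0 := by
    rintro rfl
    have : β ^ p = 0 := by rw [← hα]; simp
    exact pow_ne_zero _ hβ0 this
  have hαK0 : (α : K) ≠ 0 := by simpa using hα0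
  -- valuations
  have hval : ∀ v : HeightOneSpectrum (𝓞 K), ∃ m : ℤ,
      v.valuation K (α : K) = WithZero.exp ((p : ℤ) * m) := by
    intro v
    haveI := v.isPrime
    obtain ⟨ℓ, hℓ, hℓv⟩ := exists_prime_mem v.asIdeal v.ne_bot
    by_cases hℓS : ℓ ∈ S
    · obtain ⟨σ, hσ, hψ⟩ := hdec v.asIdeal v.isPrime v.ne_bot ⟨ℓ, hℓS, hℓv⟩
      exact D.val_dec ζ hζ hω v σ hσ hψ β hβ0 hβ α hα
    · refine val_of_unr K M ℓ (hS ℓ hℓ hℓS) (α : K) hαK0 β hα.symm ?_ v hℓv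
      intro g hg
      have h1 := hβ g hg.1
      rw [hM g hg, ZMod.val_zero, pow_zero, one_mul] at h1
      exact h1
  obtain ⟨𝔞, h𝔞⟩ := exists_ideal_pow α hα0 hval
  have h𝔞0 : 𝔞 ≠ ⊥ := by
    rintro rfl
    rw [← Ideal.zero_eq_bot, zero_pow hppos.ne'] at h𝔞
    exact hα0 (Ideal.span_singleton_eq_bot.1 (by rw [← h𝔞]; rfl))
  have h𝔞p : 𝔞.IsPrincipal := by
    apply hcl 𝔞 h𝔞0
    · rw [h𝔞]; exact ⟨⟨α, rfl⟩⟩
    intro n hn
    -- lifts
    choose g hg using fun σ : Gal(K/ℚ) =>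
      AlgEquiv.restrictNormalHom_surjective (F := ℚ) (K₁ := K) Qb σ
    have hprod : ∀ T : Finset Gal(K/ℚ),
        D.Ty ζ (∏ σ ∈ T, (g σ β) ^ n σ) (∑ σ ∈ T, (n σ : R) * D.ψ σ) := by
      intro T
      induction T using Finset.induction_on with
      | empty => simpa using D.ty_of_mem ζ hζ K.one_mem
      | insert σ T hσ ih =>
        rw [Finset.prod_insert hσ, Finset.sum_insert hσ]
        refine D.ty_mul ζ hζ (D.ty_pow ζ hζ ?_ (n σ)) ih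
        have h1 := D.ty_smul ζ hζ hω hβ (g σ)
        rw [mul_one] at h1
        have h2 : res K (g σ) = σ := hg σ
        rwa [h2] at h1
    have hγ : ∏ σ, (g σ β) ^ n σ ∈ K := by
      apply D.mem_of_ty ζ hζ
      rw [← hn]
      exact hprod Finset.univ
    let γ : K := ⟨_, hγ⟩
    have hγp : γ ^ p = ((∏ σ : Gal(K/ℚ), (σ • α) ^ n σ : 𝓞 K) : K) := by
      apply Subtype.ext
      push_cast
      change (∏ σ, (g σ β) ^ n σ) ^ p = _
      rw [← Finset.prod_pow]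
      refine Finset.prod_congr rfl fun σ _ => ?_
      have h1 : ((σ • (α : K) : K) : Qb) = g σ ((α : K) : Qb) := by
        have h2 : (σ • (α : K) : K) = σ (α : K) := rfl
        rw [h2, ← coe_res]
        have h3 : res K (g σ) = σ := hg σ
        rw [h3]
      rw [h1, hα, map_pow, ← pow_mul, ← pow_mul, mul_comm (n σ)]
    have hγint : IsIntegral ℤ γ := by
      apply IsIntegral.of_pow hppos
      rw [hγp]
      exact RingOfIntegers.isIntegral_coe _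
    let γ' : 𝓞 K := ⟨γ, hγint⟩
    have hγ'p : γ' ^ p = ∏ σ : Gal(K/ℚ), (σ • α) ^ n σ := by
      apply RingOfIntegers.ext
      rw [← hγp]
      push_cast
      rfl
    refine ⟨⟨γ', ?_⟩⟩
    apply ideal_pow_inj hppos.ne'
    rw [← Finset.prod_pow]
    change _ = (Ideal.span {γ'}) ^ p
    rw [Ideal.span_singleton_pow, hγ'p, ← Ideal.prod_span_singleton]
    refine Finset.prod_congr rfl fun σ _ => ?_
    rw [← Ideal.span_singleton_pow, ← smul_ideal_span, ← h𝔞, smul_ideal_pow, ← pow_mul, ← pow_mul,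
      mul_comm p]
  -- a unit generator
  obtain ⟨⟨δ, hδ⟩⟩ := h𝔞p
  have hδ' : 𝔞 = Ideal.span {δ} := hδ
  have hassoc : Associated (δ ^ p) α := by
    rw [← Ideal.span_singleton_eq_span_singleton, ← Ideal.span_singleton_pow, ← hδ', h𝔞]
  obtain ⟨u, hu⟩ := hassoc
  have hδ0 : δ ≠ 0 := by
    rintro rfl
    apply h𝔞0
    rw [hδ']
    simp
  have hδK0 : ((δ : K) : Qb) ≠ 0 := by
    have : (δ : K) ≠ 0 := by simpa using hδ0
    simpa using this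
  let β₁ : Qb := β * ((δ : K) : Qb)⁻¹
  have hβ₁0 : β₁ ≠ 0 := mul_ne_zero hβ0 (inv_ne_zero hδK0)
  have hβ₁ : D.Ty ζ β₁ 1 := by
    have h1 := D.ty_mul ζ hζ hβ (D.ty_inv ζ hζ (D.ty_of_mem ζ hζ (x := ((δ : K) : Qb)) (δ : K).2))
    rwa [neg_zero, add_zero] at h1
  have hβ₁p : β₁ ^ p = (((u : 𝓞 K) : K) : Qb) := by
    have h1 : ((α : K) : Qb) = ((δ : K) : Qb) ^ p * (((u : 𝓞 K) : K) : Qb) := by
      rw [← hu]
      push_cast
      rfl
    change (β * ((δ : K) : Qb)⁻¹) ^ p = _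
    rw [mul_pow, ← hα, h1, inv_pow]
    field_simp
  -- complex conjugation
  let cK : Gal(K/ℚ) := (IsCMField.complexConj K).restrictScalars ℚ
  have hcK : ∀ x : K, cK x = IsCMField.complexConj K x := fun x => rfl
  have hψc := hc cK hcK
  obtain ⟨g, hg⟩ := AlgEquiv.restrictNormalHom_surjective (F := ℚ) (K₁ := K) Qb cK
  have hg' : res K g = cK := hg
  have hκty : D.Ty ζ (g β₁ * β₁) 0 := by
    have h1 := D.ty_mul ζ hζ (D.ty_smul ζ hζ hω hβ₁ g) hβ₁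
    rw [hg', hψc] at h1
    simpa using h1
  have hκ : g β₁ * β₁ ∈ K := D.mem_of_ty ζ hζ hκty
  have hκ0 : g β₁ * β₁ ≠ 0 := mul_ne_zero ((map_ne_zero g).2 hβ₁0) hβ₁0
  -- the torsion unit
  obtain ⟨ξ, hξ⟩ : ∃ ξ : Units.torsion K, ξ = IsCMField.unitsMulComplexConjInv K u := ⟨_, rfl⟩
  have hξ' : (((ξ : (𝓞 K)ˣ) : 𝓞 K) : K) * (cK ((u : 𝓞 K) : K)) = ((u : 𝓞 K) : K) := by
    rw [hξ, IsCMField.unitsMulComplexConjInv_apply]
    have h1 : ((((IsCMField.unitsComplexConj K u)⁻¹ : (𝓞 K)ˣ) : 𝓞 K) : K) *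
        cK ((u : 𝓞 K) : K) = 1 := by
      have h2 : cK ((u : 𝓞 K) : K) = (((IsCMField.unitsComplexConj K u : (𝓞 K)ˣ) : 𝓞 K) : K) := rfl
      rw [h2]
      have h3 : (((IsCMField.unitsComplexConj K u)⁻¹ * IsCMField.unitsComplexConj K u :
        (𝓞 K)ˣ) : 𝓞 K) = 1 := by rw [inv_mul_cancel]; rfl
      have h4 := congrArg (fun t : 𝓞 K => (t : K)) h3
      push_cast at h4
      simpa using h4
    push_cast
    rw [mul_assoc, h1, mul_one]
  have hcu : ((cK ((u : 𝓞 K) : K) : K) : Qb) = (g β₁) ^ p := by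
    rw [← hg', coe_res, ← hβ₁p, map_pow]
  have hηp : (β₁ ^ 2 * (g β₁ * β₁)⁻¹) ^ p = ((((ξ : (𝓞 K)ˣ) : 𝓞 K) : K) : Qb) := by
    have h1 := congrArg (fun t : K => (t : Qb)) hξ'
    push_cast at h1
    rw [hcu, ← hβ₁p] at h1
    have hgβ : g β₁ ≠ 0 := (map_ne_zero g).2 hβ₁0
    have h2 : (g β₁) ^ p ≠ 0 := pow_ne_zero _ hgβ
    have h3 : β₁ ^ 2 * (g β₁ * β₁)⁻¹ = β₁ * (g β₁)⁻¹ := by
      field_simp
    rw [h3, mul_pow, inv_pow, ← h1]
    field_simp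
  have hfin : IsOfFinOrder (ξ : (𝓞 K)ˣ) := ξ.2
  obtain ⟨m, hm, hξm⟩ := isOfFinOrder_iff_pow_eq_one.1 hfin
  refine ⟨β₁ ^ 2 * (g β₁ * β₁)⁻¹, p * m, Nat.mul_pos hppos hm, ?_, ?_⟩
  · rw [pow_mul, hηp]
    have h1 := congrArg (fun t : (𝓞 K)ˣ => (((t : 𝓞 K) : K) : Qb)) hξm
    push_cast at h1
    exact h1
  · have h1 := D.ty_mul ζ hζ (D.ty_pow ζ hζ hβ₁ 2) (D.ty_inv ζ hζ hκty)
    simpa using h1

end KData

end Pool.Agent.Helper60.FM
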