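import Pool.Agent.Helper60.FM.ModB

/-!
# Module D: consequences of a root of unity of type 2
-/

open NumberField Pointwise

namespace Pool.Agent.Helper60.FM

private theorem isAlgebraic_Qb : Algebra.IsAlgebraic ℚ Qb := by
  have h := AlgebraicClosure.isAlgebraic ℚ
  convert h using 1
  · rfl
  · exact Subsingleton.elim _ _

private theorem normal_Qb : Normal ℚ Qb := by
  have h1 : IsAlgClosed Qb := AlgebraicClosure.isAlgClosed ℚ
  have h2 := isAlgebraic_Qb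
  have h : IsAlgClosure ℚ Qb := ⟨h1, h2⟩
  exact IsAlgClosure.normal ℚ Qb

private theorem res_apply {K : IntermediateField ℚ Qb} [FiniteDimensional ℚ K] [IsGalois ℚ K]
    (g : GQ) (x : K) : ((res K g x : K) : Qb) = g (x : Qb) :=
  AlgEquiv.restrictNormal_commutes g K x

private theorem exists_pow_of_root {x : Qb} {r : ℕ} (hx : IsPrimitiveRoot x r) (hr : 0 < r)
    (g : GQ) : ∃ a : ℕ, g x = x ^ a := by
  have : NeZero r := ⟨hr.ne'⟩
  have h1 : (g x) ^ r = 1 := by rw [← map_pow, hx.pow_eq_one, map_one]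
  obtain ⟨a, -, ha⟩ := hx.eq_pow_of_pow_eq_one h1
  exact ⟨a, ha.symm⟩

/-- If a root of unity has type 2 then `ψ = ω` in `R`. -/
theorem KData.psi_eq {p : ℕ} [hp : Fact p.Prime] {K : IntermediateField ℚ Qb}
    [FiniteDimensional ℚ K] [IsGalois ℚ K] {ω : Gal(K/ℚ) → ℕ} {R : Type*} [CommRing R] [IsDomain R]
    (D : KData p K ω R) (ζ : K) (hp2 : p ≠ 2) (hpR : (p : R) = 0)
    (hζ : IsPrimitiveRoot ζ p) (hω : ∀ σ : Gal(K/ℚ), σ ζ = ζ ^ ω σ)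
    (η : Qb) (m : ℕ) (hm : 0 < m) (hη : η ^ m = 1) (hty : D.Ty ζ η 2) (σ : Gal(K/ℚ)) :
    D.ψ σ = (ω σ : R) := by
  have hpp : p.Prime := hp.out
  have hcast : ∀ n : ℕ, (n : R) = 0 → p ∣ n := by
    intro n hn
    by_contra hnd
    have hc : Nat.Coprime p n := (hpp.coprime_iff_not_dvd).2 hnd
    have h1 : IsCoprime (p : ℤ) (n : ℤ) := Nat.isCoprime_iff_coprime.2 hc
    obtain ⟨u, v, huv⟩ := h1
    have h2 := congrArg (fun z : ℤ => (z : R)) huv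
    simp [hpR, hn] at h2
  have h2R : (2 : R) ≠ 0 := by
    intro h
    have := hcast 2 (by exact_mod_cast h)
    exact hp2 ((Nat.prime_dvd_prime_iff_eq hpp Nat.prime_two).1 this)
  have hη0 : η ≠ 0 := by
    rintro rfl
    rw [zero_pow hm.ne'] at hη
    exact zero_ne_one hη
  -- elements of the closure
  have hcl : ∀ n : ℕ, (n : R) ∈ Subring.closure (Set.range D.ψ) := fun n => natCast_mem _ n
  have h2cl : (2 : R) ∈ Subring.closure (Set.range D.ψ) := by exact_mod_cast hcl 2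
  set r := orderOf η with hr
  have hr0 : 0 < r := orderOf_pos_iff.2 (isOfFinOrder_iff_pow_eq_one.2 ⟨m, hm, hη⟩)
  have hηr : IsPrimitiveRoot η r := IsPrimitiveRoot.orderOf η
  have : Normal ℚ Qb := normal_Qb
  obtain ⟨g, hg⟩ := AlgEquiv.restrictNormalHom_surjective Qb (F := ℚ) (K₁ := K) σ
  have hg' : res K g = σ := hg
  obtain ⟨a, ha⟩ := exists_pow_of_root hηr hr0 g
  have hgη0 : g η ≠ 0 := by
    rw [ne_eq, map_eq_zero_iff g g.injective]; exact hη0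
  have ht1 := KData.ty_smul D ζ hζ hω hty g
  have ht2 := KData.ty_pow D ζ hζ hty a
  rw [← ha] at ht2
  have hun := KData.ty_unique D ζ hζ hgη0 ht1 ht2
  have hz : D.ψ σ * 2 - a * 2 = 0 := by
    refine KData.nondeg D (Subring.sub_mem _ (Subring.mul_mem _
      (Subring.subset_closure ⟨σ, rfl⟩) h2cl) (Subring.mul_mem _ (hcl a) h2cl)) fun k hk => ?_
    rw [map_sub, sub_eq_zero, ← hg']
    exact hun k hk
  have hψa : D.ψ σ = a := by
    have : (D.ψ σ - a) * 2 = 0 := by rw [sub_mul]; exact hz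
    rcases mul_eq_zero.1 this with h | h
    · exact sub_eq_zero.1 h
    · exact absurd h h2R
  -- `p ∣ r`
  have hpr : p ∣ r := by
    apply hcast
    have h1 := KData.ty_pow D ζ hζ hty r
    rw [hηr.pow_eq_one] at h1
    have h0 := KData.ty_of_mem D ζ hζ (x := 1) (one_mem K)
    have h3 := KData.ty_unique D ζ hζ one_ne_zero h1 h0
    have h4 : (r : R) * 2 = 0 := KData.nondeg D (Subring.mul_mem _ (hcl r) h2cl) fun k hk => by
      rw [h3 k hk, map_zero]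
    rcases mul_eq_zero.1 h4 with h | h
    · exact h
    · exact absurd h h2R
  obtain ⟨s, hs⟩ := hpr
  have hη' : IsPrimitiveRoot (η ^ s) p := hηr.pow hr0 (by rw [hs, mul_comm])
  have hζ' : IsPrimitiveRoot (ζ : Qb) p := hζ.map_of_injective (f := K.val) K.val.injective
  have : NeZero p := ⟨hpp.ne_zero⟩
  obtain ⟨j, -, hj⟩ := hη'.eq_pow_of_pow_eq_one hζ'.pow_eq_one
  have h1 : g (ζ : Qb) = (ζ : Qb) ^ a := by
    rw [← hj, map_pow, map_pow, ha]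
    ring
  have h2 : g (ζ : Qb) = (ζ : Qb) ^ ω σ := by
    rw [← res_apply g ζ, hg', hω]
    simp
  have h3 : (ζ : Qb) ^ ((ω σ : ℤ) - (a : ℤ)) = 1 := by
    have hne : (ζ : Qb) ≠ 0 := hζ'.ne_zero hpp.ne_zero
    rw [zpow_sub₀ hne, zpow_natCast, zpow_natCast, ← h1, ← h2, div_self]
    rw [ne_eq, map_eq_zero_iff g g.injective]; exact hne
  rw [hψa]
  obtain ⟨c, hc⟩ := (hζ'.zpow_eq_one_iff_dvd _).1 h3
  have h5 := congrArg (fun z : ℤ => (z : R)) hc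
  simp only [Int.cast_sub, Int.cast_natCast, Int.cast_mul, hpR, zero_mul] at h5
  exact (sub_eq_zero.1 h5).symm

/-- Two homomorphisms on `Gal(Qb/K)` realised by roots of unity have comparable kernels. -/
theorem comparable_of_roots {p : ℕ} [hp : Fact p.Prime] (K : IntermediateField ℚ Qb)
    (ζ : K) (hζ : IsPrimitiveRoot ζ p) (φ₁ φ₂ : GQ → ZMod p)
    (η₁ η₂ : Qb) (m : ℕ) (hm : 0 < m) (h₁ : η₁ ^ m = 1) (h₂ : η₂ ^ m = 1)
    (ht₁ : ∀ k ∈ K.fixingSubgroup, k η₁ = (ζ : Qb) ^ (φ₁ k).val * η₁)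
    (ht₂ : ∀ k ∈ K.fixingSubgroup, k η₂ = (ζ : Qb) ^ (φ₂ k).val * η₂) :
    (∀ k ∈ K.fixingSubgroup, φ₁ k = 0 → φ₂ k = 0) ∨
      (∀ k ∈ K.fixingSubgroup, φ₂ k = 0 → φ₁ k = 0) := by
  have hpp : p.Prime := hp.out
  have hζ' : IsPrimitiveRoot (ζ : Qb) p := hζ.map_of_injective (f := K.val) K.val.injective
  have : NeZero m := ⟨hm.ne'⟩
  have : NeZero p := ⟨hpp.ne_zero⟩
  obtain ⟨η₀, hη₀⟩ := HasEnoughRootsOfUnity.exists_primitiveRoot Qb m
  obtain ⟨e₁, -, he₁⟩ := hη₀.eq_pow_of_pow_eq_one h₁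
  obtain ⟨e₂, -, he₂⟩ := hη₀.eq_pow_of_pow_eq_one h₂
  have hη₀0 : η₀ ≠ 0 := hη₀.ne_zero hm.ne'
  -- translation into divisibility
  have key : ∀ (φ : GQ → ZMod p) (e : ℕ), (∀ k ∈ K.fixingSubgroup, k (η₀ ^ e) =
      (ζ : Qb) ^ (φ k).val * η₀ ^ e) → ∀ (k : GQ), k ∈ K.fixingSubgroup → ∀ a : ℕ,
      k η₀ = η₀ ^ a → (φ k = 0 ↔ (m : ℤ) ∣ ((a : ℤ) - 1) * e) ∧
        (m : ℤ) ∣ p * (((a : ℤ) - 1) * e) := by
    intro φ e ht k hk a ha
    have h1 := ht k hk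
    rw [map_pow, ha] at h1
    have h2 : η₀ ^ (((a : ℤ) - 1) * e) = (ζ : Qb) ^ (φ k).val := by
      have h3 : η₀ ^ e ≠ 0 := pow_ne_zero _ hη₀0
      have h4 : η₀ ^ (((a : ℤ) - 1) * e) * η₀ ^ e = (η₀ ^ a) ^ e := by
        rw [← zpow_natCast η₀ e, ← zpow_add₀ hη₀0, ← pow_mul, ← zpow_natCast]
        congr 1
        push_cast
        ring
      exact mul_right_cancel₀ h3 (h4.trans h1)
    constructor
    · rw [← hη₀.zpow_eq_one_iff_dvd, h2, hζ'.pow_eq_one_iff_dvd]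
      constructor
      · intro h; rw [h, ZMod.val_zero]; exact dvd_zero _
      · intro h
        have := Nat.eq_zero_of_dvd_of_lt h (ZMod.val_lt _)
        exact (ZMod.val_eq_zero _).1 this
    · rw [← hη₀.zpow_eq_one_iff_dvd, mul_comm, zpow_mul, h2, zpow_natCast, ← pow_mul, mul_comm,
        pow_mul, hζ'.pow_eq_one, one_pow]
  by_contra hcon
  push Not at hcon
  obtain ⟨⟨k₁, hk₁, ha₁, hb₁⟩, k₂, hk₂, ha₂, hb₂⟩ := hcon
  obtain ⟨x, hx⟩ := exists_pow_of_root hη₀ hm k₁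
  obtain ⟨y, hy⟩ := exists_pow_of_root hη₀ hm k₂
  have t₁ : ∀ k ∈ K.fixingSubgroup, k (η₀ ^ e₁) = (ζ : Qb) ^ (φ₁ k).val * η₀ ^ e₁ := by
    rw [he₁]; exact ht₁
  have t₂ : ∀ k ∈ K.fixingSubgroup, k (η₀ ^ e₂) = (ζ : Qb) ^ (φ₂ k).val * η₀ ^ e₂ := by
    rw [he₂]; exact ht₂
  have a1 := (key φ₁ e₁ t₁ k₁ hk₁ x hx)
  have a2 := (key φ₂ e₂ t₂ k₁ hk₁ x hx)
  have b1 := (key φ₁ e₁ t₁ k₂ hk₂ y hy)
  have b2 := (key φ₂ e₂ t₂ k₂ hk₂ y hy)
  have c1 : (m : ℤ) ∣ ((x : ℤ) - 1) * e₁ := a1.1.1 ha₁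
  have c2 : ¬ (m : ℤ) ∣ ((x : ℤ) - 1) * e₂ := fun h => hb₁ (a2.1.2 h)
  have c3 : (m : ℤ) ∣ ((y : ℤ) - 1) * e₂ := b2.1.1 ha₂
  have c4 : ¬ (m : ℤ) ∣ ((y : ℤ) - 1) * e₁ := fun h => hb₂ (b1.1.2 h)
  -- reduce to the `p`-part of `m`
  obtain ⟨s, m', hm', hms⟩ := Nat.exists_eq_pow_mul_and_not_dvd hm.ne' p hpp.ne_one
  have hcop : IsCoprime (m' : ℤ) (p : ℤ) :=
    Nat.isCoprime_iff_coprime.2 ((hpp.coprime_iff_not_dvd).2 hm').symm
  have hcop' : IsCoprime ((p : ℤ) ^ s) (m' : ℤ) := (hcop.symm).pow_left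
  have hmz : (m : ℤ) = (p : ℤ) ^ s * m' := by exact_mod_cast hms
  have hps : ∀ N : ℤ, (m : ℤ) ∣ N → (p : ℤ) ^ s ∣ N := fun N hN =>
    (Dvd.intro _ hmz.symm).trans hN
  have hnps : ∀ N : ℤ, ¬ (m : ℤ) ∣ N → (m : ℤ) ∣ p * N → ¬ (p : ℤ) ^ s ∣ N := by
    intro N h1 h2 h3
    apply h1
    rw [hmz]
    refine hcop'.mul_dvd h3 ?_
    exact hcop.dvd_of_dvd_mul_left ((Dvd.intro_left _ hmz.symm).trans h2)
  have d1 := hps _ c1
  have d2 := hnps _ c2 a2.2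
  have d3 := hps _ c3
  have d4 := hnps _ c4 b1.2
  have hpZ : Prime (p : ℤ) := Nat.prime_iff_prime_int.1 hpp
  rw [pow_dvd_iff_le_emultiplicity, emultiplicity_mul hpZ] at d1 d2 d3 d4
  push Not at d2 d4
  have f1 : emultiplicity (p : ℤ) ((x : ℤ) - 1) ≠ ⊤ := fun h => by rw [h] at d2; simp at d2
  have f2 : emultiplicity (p : ℤ) (e₂ : ℤ) ≠ ⊤ := fun h => by rw [h] at d2; simp at d2
  have f3 : emultiplicity (p : ℤ) ((y : ℤ) - 1) ≠ ⊤ := fun h => by rw [h] at d4; simp at d4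
  have f4 : emultiplicity (p : ℤ) (e₁ : ℤ) ≠ ⊤ := fun h => by rw [h] at d4; simp at d4
  generalize emultiplicity (p : ℤ) ((x : ℤ) - 1) = A at *
  generalize emultiplicity (p : ℤ) (e₂ : ℤ) = B at *
  generalize emultiplicity (p : ℤ) ((y : ℤ) - 1) = C at *
  generalize emultiplicity (p : ℤ) (e₁ : ℤ) = E at *
  lift A to ℕ using f1
  lift B to ℕ using f2
  lift C to ℕ using f3
  lift E to ℕ using f4
  norm_cast at d1 d2 d3 d4
  omega

end Pool.Agent.Helper60.FM
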