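import Pool.Agent.Helper60.FM.Defs

/-!
# Module E: residually scalar representations

`G` a profinite group. -/

open Matrix

namespace Pool.Agent.Helper60.FM

variable (p : ℕ) [Fact p.Prime] {E : Type*} [NormedField E] [IsUltrametricDist E]
  [CompleteSpace E] [NormedAlgebra ℚ_[p] E]

/-! ### finite `p`-groups -/

omit [Fact p.Prime] in
variable {p} in
theorem E_coatom [Fact p.Prime] {P : Type*} [Group P] [Finite P] (hP : IsPGroup p P)
    {M : Subgroup P} (hM : IsCoatom M) : ∃ φ : P →* Multiplicative (ZMod p), φ.ker = M := by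
  have hnil : Group.IsNilpotent P := hP.isNilpotent
  have hnorm : M.Normal :=
    Subgroup.NormalizerCondition.normal_of_coatom M Group.normalizerCondition_of_isNilpotent hM
  have hQ : IsPGroup p (P ⧸ M) := hP.to_quotient M
  have hQnt : Nat.card (P ⧸ M) ≠ 1 := by
    intro h
    have : M.index = 1 := h
    exact hM.1 (Subgroup.index_eq_one.1 this)
  have hdvd : p ∣ Nat.card (P ⧸ M) := (hQ.card_eq_or_dvd).resolve_left hQnt
  obtain ⟨x, hx⟩ := exists_prime_orderOf_dvd_card' p hdvd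
  have htop : Subgroup.zpowers x = ⊤ := by
    have h1 : M ≤ (Subgroup.zpowers x).comap (QuotientGroup.mk' M) := by
      intro m hm
      rw [Subgroup.mem_comap]
      have : (QuotientGroup.mk' M) m = 1 := (QuotientGroup.eq_one_iff m).2 hm
      rw [this]
      exact one_mem _
    rcases hM.le_iff.1 h1 with h2 | h2
    · rw [eq_top_iff]
      rintro q -
      obtain ⟨g, rfl⟩ := QuotientGroup.mk'_surjective M q
      have : g ∈ (Subgroup.zpowers x).comap (QuotientGroup.mk' M) := by rw [h2]; trivial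
      exact this
    · exfalso
      obtain ⟨g, hg⟩ := QuotientGroup.mk'_surjective M x
      have : g ∈ (Subgroup.zpowers x).comap (QuotientGroup.mk' M) := by
        rw [Subgroup.mem_comap, hg]
        exact Subgroup.mem_zpowers x
      rw [h2] at this
      have hx1 : x = 1 := by
        rw [← hg]
        exact (QuotientGroup.eq_one_iff g).2 this
      rw [hx1, orderOf_one] at hx
      exact (Fact.out : p.Prime).one_lt.ne hx
  have hcard : Nat.card (P ⧸ M) = p := by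
    rw [← hx, ← Nat.card_zpowers, htop, Subgroup.card_top]
  have hcard2 : Nat.card (Multiplicative (ZMod p)) = p := by
    rw [Nat.card_congr Multiplicative.toAdd]
    exact Nat.card_zmod p
  let e := mulEquivOfPrimeCardEq hcard hcard2
  refine ⟨e.toMonoidHom.comp (QuotientGroup.mk' M), ?_⟩
  ext g
  rw [MonoidHom.mem_ker, MonoidHom.comp_apply]
  constructor
  · intro h
    have h2 : e ((QuotientGroup.mk' M) g) = 1 := h
    have h3 : (QuotientGroup.mk' M) g = 1 := by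
      apply e.injective
      rw [h2, map_one]
    exact (QuotientGroup.eq_one_iff g).1 h3
  · intro h
    have h3 : (QuotientGroup.mk' M) g = 1 := (QuotientGroup.eq_one_iff g).2 h
    show e ((QuotientGroup.mk' M) g) = 1
    rw [h3, map_one]

variable {p} in
theorem E_pgroup {P : Type*} [Group P] [Finite P] (hP : IsPGroup p P)
    {x y : P} (hxy : x * y ≠ y * x) :
    ∃ φ₁ φ₂ : P →* Multiplicative (ZMod p), ¬ φ₁.ker ≤ φ₂.ker ∧ ¬ φ₂.ker ≤ φ₁.ker := by
  have hno : ∀ g : P, Subgroup.zpowers g ≠ ⊤ := by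
    intro g hg
    have hx : x ∈ Subgroup.zpowers g := by rw [hg]; trivial
    have hy : y ∈ Subgroup.zpowers g := by rw [hg]; trivial
    obtain ⟨a, rfl⟩ := Subgroup.mem_zpowers_iff.1 hx
    obtain ⟨b, rfl⟩ := Subgroup.mem_zpowers_iff.1 hy
    exact hxy (by rw [← _root_.zpow_add, ← _root_.zpow_add, add_comm])
  obtain ⟨M₁, hM₁, -⟩ := (eq_top_or_exists_le_coatom (Subgroup.zpowers (1 : P))).resolve_left (hno 1)
  obtain ⟨g, hg⟩ : ∃ g, g ∉ M₁ := by
    by_contra h
    push Not at h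
    exact hM₁.1 (eq_top_iff.2 fun g _ => h g)
  obtain ⟨M₂, hM₂, hle⟩ := (eq_top_or_exists_le_coatom (Subgroup.zpowers g)).resolve_left (hno g)
  have hg2 : g ∈ M₂ := hle (Subgroup.mem_zpowers g)
  have hne : M₁ ≠ M₂ := fun h => hg (h ▸ hg2)
  obtain ⟨φ₁, h₁⟩ := E_coatom hP hM₁
  obtain ⟨φ₂, h₂⟩ := E_coatom hP hM₂
  refine ⟨φ₁, φ₂, ?_, ?_⟩
  · rw [h₁, h₂]
    intro h
    rcases hM₁.le_iff.1 h with h3 | h3
    · exact hM₂.1 h3
    · exact hne h3.symm
  · rw [h₁, h₂]
    intro h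
    rcases hM₂.le_iff.1 h with h3 | h3
    · exact hM₁.1 h3
    · exact hne h3

/-! ### topologically unipotent matrices -/

section matrices

variable {E : Type*} [NormedField E] [IsUltrametricDist E]

/-- `M = a + b N` with `|a|, |b| ≤ c` -/
def InZ (N : Matrix (Fin 2) (Fin 2) E) (c : ℝ) (M : Matrix (Fin 2) (Fin 2) E) : Prop :=
  ∃ a b : E, M = a • (1 : Matrix (Fin 2) (Fin 2) E) + b • N ∧ ‖a‖ ≤ c ∧ ‖b‖ ≤ c

theorem E_max {x y : E} {c : ℝ} (hx : ‖x‖ ≤ c) (hy : ‖y‖ ≤ c) : ‖x + y‖ ≤ c :=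
  (IsUltrametricDist.norm_add_le_max x y).trans (max_le hx hy)

variable {N : Matrix (Fin 2) (Fin 2) E} {α β : E}

theorem InZ.mono {c c' : ℝ} (h : c ≤ c') {M : Matrix (Fin 2) (Fin 2) E} (hM : InZ N c M) :
    InZ N c' M := by
  obtain ⟨a, b, h1, h2, h3⟩ := hM
  exact ⟨a, b, h1, h2.trans h, h3.trans h⟩

theorem InZ.add {c : ℝ} {M M' : Matrix (Fin 2) (Fin 2) E} (hM : InZ N c M) (hM' : InZ N c M') :
    InZ N c (M + M') := by
  obtain ⟨a, b, rfl, h2, h3⟩ := hM
  obtain ⟨a', b', rfl, h2', h3'⟩ := hM'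
  refine ⟨a + a', b + b', ?_, E_max h2 h2', E_max h3 h3'⟩
  rw [add_smul, add_smul]
  abel

theorem InZ.mul (hN : N * N = α • (1 : Matrix (Fin 2) (Fin 2) E) + β • N) (hα : ‖α‖ ≤ 1)
    (hβ : ‖β‖ ≤ 1) {c c' : ℝ} (hc : 0 ≤ c) (hc' : 0 ≤ c') {M M' : Matrix (Fin 2) (Fin 2) E}
    (hM : InZ N c M) (hM' : InZ N c' M') : InZ N (c * c') (M * M') := by
  obtain ⟨a, b, rfl, h2, h3⟩ := hM
  obtain ⟨a', b', rfl, h2', h3'⟩ := hM'
  have k1 : ‖a * a'‖ ≤ c * c' := by
    rw [norm_mul]; exact mul_le_mul h2 h2' (norm_nonneg _) hc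
  have k2 : ‖a * b'‖ ≤ c * c' := by
    rw [norm_mul]; exact mul_le_mul h2 h3' (norm_nonneg _) hc
  have k3 : ‖b * a'‖ ≤ c * c' := by
    rw [norm_mul]; exact mul_le_mul h3 h2' (norm_nonneg _) hc
  have k4 : ‖b * b'‖ ≤ c * c' := by
    rw [norm_mul]; exact mul_le_mul h3 h3' (norm_nonneg _) hc
  have k5 : ‖b * b' * α‖ ≤ c * c' := by
    rw [norm_mul]
    calc ‖b * b'‖ * ‖α‖ ≤ ‖b * b'‖ * 1 := mul_le_mul_of_nonneg_left hα (norm_nonneg _)
      _ ≤ c * c' := by rw [mul_one]; exact k4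
  have k6 : ‖b * b' * β‖ ≤ c * c' := by
    rw [norm_mul]
    calc ‖b * b'‖ * ‖β‖ ≤ ‖b * b'‖ * 1 := mul_le_mul_of_nonneg_left hβ (norm_nonneg _)
      _ ≤ c * c' := by rw [mul_one]; exact k4
  refine ⟨a * a' + b * b' * α, a * b' + b * a' + b * b' * β, ?_, E_max k1 k5,
    E_max (E_max k2 k3) k6⟩
  have e : (a • (1 : Matrix (Fin 2) (Fin 2) E) + b • N) * (a' • 1 + b' • N)
      = (a * a') • 1 + (a * b' + b * a') • N + (b * b') • (N * N) := by
    rw [add_mul, mul_add, mul_add, smul_mul_smul_comm, smul_mul_smul_comm, smul_mul_smul_comm,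
      smul_mul_smul_comm, one_mul, one_mul, mul_one, add_smul]
    abel
  rw [e, hN, smul_add, smul_smul, smul_smul, add_smul (a * a'), add_smul _ (b * b' * β)]
  abel

theorem InZ.one : InZ N 1 (1 : Matrix (Fin 2) (Fin 2) E) :=
  ⟨1, 0, by simp, by simp, by simp⟩

theorem InZ.self : InZ N 1 N := ⟨0, 1, by simp, by simp, by simp⟩

theorem InZ.zero {c : ℝ} (hc : 0 ≤ c) : InZ N c (0 : Matrix (Fin 2) (Fin 2) E) :=
  ⟨0, 0, by simp, by simpa using hc, by simpa using hc⟩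

theorem InZ.natCast {c : ℝ} (hc : 0 ≤ c) {m : ℕ} (hm : ‖(m : E)‖ ≤ c) :
    InZ N c (m : Matrix (Fin 2) (Fin 2) E) := by
  refine ⟨m, 0, ?_, hm, by simpa using hc⟩
  rw [zero_smul, add_zero, Nat.cast_smul_eq_nsmul, nsmul_one]

theorem InZ.sum {c : ℝ} (hc : 0 ≤ c) {ι : Type*} (s : Finset ι)
    (f : ι → Matrix (Fin 2) (Fin 2) E) (h : ∀ i ∈ s, InZ N c (f i)) : InZ N c (∑ i ∈ s, f i) := by
  classical
  induction s using Finset.induction_on with
  | empty => simpa using InZ.zero hc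
  | insert a s ha ih =>
    rw [Finset.sum_insert ha]
    exact (h a (Finset.mem_insert_self a s)).add (ih fun i hi => h i (Finset.mem_insert_of_mem hi))

theorem InZ.pow (hN : N * N = α • (1 : Matrix (Fin 2) (Fin 2) E) + β • N) (hα : ‖α‖ ≤ 1)
    (hβ : ‖β‖ ≤ 1) {M : Matrix (Fin 2) (Fin 2) E} (hM : InZ N 1 M) (k : ℕ) : InZ N 1 (M ^ k) := by
  induction k with
  | zero => simpa using InZ.one
  | succ k ih =>
    rw [pow_succ]
    have := InZ.mul hN hα hβ zero_le_one zero_le_one ih hM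
    rwa [one_mul] at this

theorem E_pow_sub_one (Y : Matrix (Fin 2) (Fin 2) E) (k : ℕ) :
    Y ^ k - 1 = (Y - 1) * ∑ i ∈ Finset.range k, Y ^ i := (mul_geom_sum Y k).symm

/-- one step -/
theorem E_step (hN : N * N = α • (1 : Matrix (Fin 2) (Fin 2) E) + β • N) (hα : ‖α‖ ≤ 1)
    (hβ : ‖β‖ ≤ 1) {q : ℕ} {δ c : ℝ} (hδ1 : δ ≤ 1) (hq : ‖(q : E)‖ ≤ δ) (hc : 0 ≤ c) (hc1 : c ≤ δ)
    {Y : Matrix (Fin 2) (Fin 2) E} (hY : InZ N c (Y - 1)) : InZ N (c * δ) (Y ^ q - 1) := by
  have hδ0 : 0 ≤ δ := hc.trans hc1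
  have hY1 : InZ N 1 Y := by
    have := (hY.mono (hc1.trans hδ1)).add (InZ.one (N := N))
    rwa [sub_add_cancel] at this
  rw [E_pow_sub_one]
  refine InZ.mul hN hα hβ hc hδ0 hY ?_
  have e : ∑ i ∈ Finset.range q, Y ^ i = (q : Matrix (Fin 2) (Fin 2) E)
      + ∑ i ∈ Finset.range q, (Y ^ i - 1) := by
    rw [Finset.sum_sub_distrib, Finset.sum_const, Finset.card_range, nsmul_eq_mul, mul_one]
    abel
  rw [e]
  refine (InZ.natCast hδ0 hq).add (InZ.sum hδ0 _ _ fun i _ => ?_)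
  rw [E_pow_sub_one]
  have h1 : InZ N 1 (∑ j ∈ Finset.range i, Y ^ j) :=
    InZ.sum zero_le_one _ _ fun j _ => InZ.pow hN hα hβ hY1 j
  have h2 := InZ.mul hN hα hβ hδ0 zero_le_one (hY.mono hc1) h1
  rwa [mul_one] at h2

/-- first step: `Y = 1 + N` -/
theorem E_first (hN : N * N = α • (1 : Matrix (Fin 2) (Fin 2) E) + β • N) {δ : ℝ}
    (hδ1 : δ ≤ 1) (hδ0 : 0 ≤ δ) (hα : ‖α‖ ≤ δ) (hβ : ‖β‖ ≤ δ) {q : ℕ} (hq : ‖(q : E)‖ ≤ δ) :
    InZ N δ ((1 + N) ^ q - 1) := by
  have hα1 := hα.trans hδ1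
  have hβ1 := hβ.trans hδ1
  have hY1 : InZ N 1 (1 + N) := InZ.one.add InZ.self
  rw [E_pow_sub_one]
  have e : ∑ i ∈ Finset.range q, (1 + N) ^ i = (q : Matrix (Fin 2) (Fin 2) E)
      + N * ∑ i ∈ Finset.range q, ∑ j ∈ Finset.range i, (1 + N) ^ j := by
    have h1 : ∀ i, N * ∑ j ∈ Finset.range i, (1 + N) ^ j = (1 + N) ^ i - 1 := by
      intro i
      rw [E_pow_sub_one, add_sub_cancel_left]
    rw [Finset.mul_sum, Finset.sum_congr rfl fun i _ => h1 i, Finset.sum_sub_distrib,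
      Finset.sum_const, Finset.card_range, nsmul_eq_mul, mul_one]
    abel
  rw [e, add_sub_cancel_left, mul_add, ← mul_assoc]
  refine InZ.add ?_ ?_
  · have := InZ.mul hN hα1 hβ1 zero_le_one hδ0 (InZ.self (N := N)) (InZ.natCast hδ0 hq)
    rwa [one_mul] at this
  · have h1 : InZ N 1 (∑ i ∈ Finset.range q, ∑ j ∈ Finset.range i, (1 + N) ^ j) :=
      InZ.sum zero_le_one _ _ fun i _ => InZ.sum zero_le_one _ _ fun j _ =>
        InZ.pow hN hα1 hβ1 hY1 j
    have h2 : InZ N δ (N * N) := ⟨α, β, hN, hα, hβ⟩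
    have := InZ.mul hN hα1 hβ1 hδ0 zero_le_one h2 h1
    rwa [mul_one] at this

theorem E_tendsto (hN : N * N = α • (1 : Matrix (Fin 2) (Fin 2) E) + β • N) (hα : ‖α‖ < 1)
    (hβ : ‖β‖ < 1) {q : ℕ} (hq : ‖(q : E)‖ < 1) :
    Filter.Tendsto (fun n : ℕ => (1 + N) ^ (q ^ n)) Filter.atTop (nhds 1) := by
  obtain ⟨δ, hδ1, h1, h2, h3⟩ : ∃ δ : ℝ, δ < 1 ∧ ‖α‖ ≤ δ ∧ ‖β‖ ≤ δ ∧ ‖(q : E)‖ ≤ δ :=
    ⟨max ‖α‖ (max ‖β‖ ‖(q : E)‖), max_lt hα (max_lt hβ hq), le_max_left _ _,
      (le_max_left _ _).trans (le_max_right _ _), (le_max_right _ _).trans (le_max_right _ _)⟩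
  have hδ0 : 0 ≤ δ := (norm_nonneg _).trans h1
  have key : ∀ n : ℕ, InZ N (δ ^ (n + 1)) ((1 + N) ^ (q ^ (n + 1)) - 1) := by
    intro n
    induction n with
    | zero => simpa using E_first hN hδ1.le hδ0 h1 h2 h3
    | succ n ih =>
      have := E_step hN (h1.trans hδ1.le) (h2.trans hδ1.le) hδ1.le h3 (pow_nonneg hδ0 (n + 1))
        (by
          calc δ ^ (n + 1) ≤ δ ^ 1 := pow_le_pow_of_le_one hδ0 hδ1.le (by omega)
            _ = δ := pow_one δ) ih
      rw [← pow_succ, ← pow_mul, ← pow_succ] at this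
      exact this
  have hpow : Filter.Tendsto (fun n : ℕ => δ ^ (n + 1)) Filter.atTop (nhds 0) :=
    (tendsto_pow_atTop_nhds_zero_of_lt_one hδ0 hδ1).comp (Filter.tendsto_add_atTop_nat 1)
  rw [← Filter.tendsto_add_atTop_iff_nat 1]
  refine tendsto_pi_nhds.2 fun i => tendsto_pi_nhds.2 fun j => ?_
  rw [tendsto_iff_norm_sub_tendsto_zero]
  refine squeeze_zero (g := fun n : ℕ => δ ^ (n + 1) *
    (‖(1 : Matrix (Fin 2) (Fin 2) E) i j‖ + ‖N i j‖)) (fun _ => norm_nonneg _) ?_ ?_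
  · intro n
    obtain ⟨a, b, hab, ha, hb⟩ := key n
    have e : ((1 + N) ^ (q ^ (n + 1))) i j - (1 : Matrix (Fin 2) (Fin 2) E) i j
        = a * (1 : Matrix (Fin 2) (Fin 2) E) i j + b * N i j := by
      rw [← Matrix.sub_apply, hab, Matrix.add_apply, Matrix.smul_apply, Matrix.smul_apply,
        smul_eq_mul, smul_eq_mul]
    rw [e]
    calc ‖a * (1 : Matrix (Fin 2) (Fin 2) E) i j + b * N i j‖
        ≤ ‖a‖ * ‖(1 : Matrix (Fin 2) (Fin 2) E) i j‖ + ‖b‖ * ‖N i j‖ := by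
          rw [← norm_mul, ← norm_mul]; exact norm_add_le _ _
      _ ≤ δ ^ (n + 1) * ‖(1 : Matrix (Fin 2) (Fin 2) E) i j‖ + δ ^ (n + 1) * ‖N i j‖ :=
          add_le_add (mul_le_mul_of_nonneg_right ha (norm_nonneg _))
            (mul_le_mul_of_nonneg_right hb (norm_nonneg _))
      _ = _ := by ring
  · simpa using hpow.mul_const (‖(1 : Matrix (Fin 2) (Fin 2) E) i j‖ + ‖N i j‖)

theorem E_CH (A : Matrix (Fin 2) (Fin 2) E) : (A - 1) * (A - 1)
    = (trace A - 1 - det A) • (1 : Matrix (Fin 2) (Fin 2) E) + (trace A - 2) • (A - 1) := by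
  ext i j
  fin_cases i <;> fin_cases j <;>
    simp [Matrix.mul_apply, Fin.sum_univ_two, trace_fin_two, det_fin_two] <;> ring

theorem E_tr_sq (A : Matrix (Fin 2) (Fin 2) E) :
    trace (A * A) = trace A ^ 2 - 2 * det A := by
  simp [Matrix.mul_apply, Fin.sum_univ_two, trace_fin_two, det_fin_two]
  ring

/-- a root of unity of order prime to `p` which is `≡ 1` is `1` -/
theorem E_root {c : E} {n : ℕ} (hn : ‖(n : E)‖ = 1) (hc : c ^ n = 1) (h1 : ‖c‖ = 1)
    (h : ‖c - 1‖ < 1) : c = 1 := by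
  have hs : ∀ i : ℕ, ‖∑ j ∈ Finset.range i, c ^ j‖ ≤ 1 := by
    intro i
    induction i with
    | zero => simp
    | succ i ih =>
      rw [Finset.sum_range_succ]
      exact E_max ih (by rw [norm_pow, h1, one_pow])
  have hp : ∀ i : ℕ, ‖c ^ i - 1‖ ≤ ‖c - 1‖ := by
    intro i
    rw [← mul_geom_sum, norm_mul]
    calc ‖c - 1‖ * ‖∑ j ∈ Finset.range i, c ^ j‖ ≤ ‖c - 1‖ * 1 :=
          mul_le_mul_of_nonneg_left (hs i) (norm_nonneg _)
      _ = ‖c - 1‖ := mul_one _
  have hq : ∀ i : ℕ, ‖∑ j ∈ Finset.range i, (c ^ j - 1)‖ ≤ ‖c - 1‖ := by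
    intro i
    induction i with
    | zero => simp
    | succ i ih =>
      rw [Finset.sum_range_succ]
      exact E_max ih (hp i)
  have h0 : (c - 1) * ∑ j ∈ Finset.range n, c ^ j = 0 := by
    rw [mul_geom_sum, hc, sub_self]
  rcases mul_eq_zero.1 h0 with h2 | h2
  · exact sub_eq_zero.1 h2
  · exfalso
    have h3 : ∑ j ∈ Finset.range n, (c ^ j - 1) = -(n : E) := by
      rw [Finset.sum_sub_distrib, h2, Finset.sum_const, Finset.card_range, nsmul_eq_mul, mul_one,
        zero_sub]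
    have h4 := hq n
    rw [h3, norm_neg, hn] at h4
    linarith

end matrices

/-- If `tr V(g) ≡ 2χ(g)` (`p` odd) and the continuous homomorphisms `G → ℤ/p` which vanish on
`ker V` span a space of dimension at most one, then the image of `V` is commutative. -/
theorem comm_of_scalar (hp : p ≠ 2) {G : Type*} [Group G] [TopologicalSpace G]
    [IsTopologicalGroup G] [CompactSpace G] [TotallyDisconnectedSpace G] [T2Space G]
    (V : G →* GL (Fin 2) E) (hV : Continuous V)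
    (χ : G →* Eˣ) (hχ : ∃ n : ℕ, ¬ p ∣ n ∧ ∀ g, (χ g) ^ n = 1) (hχc : Continuous χ)
    (htr : ∀ g, ‖trace (V g : Matrix (Fin 2) (Fin 2) E) - 2 * χ g‖ < 1)
    (hone : ∀ φ₁ φ₂ : G →* Multiplicative (ZMod p), Continuous φ₁ → Continuous φ₂ →
      V.ker ≤ φ₁.ker → V.ker ≤ φ₂.ker → φ₁.ker ≤ φ₂.ker ∨ φ₂.ker ≤ φ₁.ker) :
    ∀ g h, V g * V h = V h * V g := by
  classical
  have hpp : p.Prime := Fact.out
  have natNorm : ∀ m : ℕ, ‖(m : E)‖ = ‖(m : ℚ_[p])‖ := fun m => by
    rw [← map_natCast (algebraMap ℚ_[p] E) m, norm_algebraMap']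
  have n2 : ‖(2 : E)‖ = 1 := by
    have h := natNorm 2
    rw [Nat.cast_ofNat] at h
    rw [h, Padic.norm_natCast_eq_one_iff]
    exact (Nat.coprime_primes hpp Nat.prime_two).2 hp
  have np : ‖(p : E)‖ < 1 := by
    rw [natNorm p]
    exact Padic.norm_p_lt_one
  obtain ⟨n, hn, hχn⟩ := hχ
  have nn : ‖(n : E)‖ = 1 := by
    rw [natNorm n, Padic.norm_natCast_eq_one_iff]
    exact (Nat.Prime.coprime_iff_not_dvd hpp).2 hn
  have hn0 : n ≠ 0 := by
    rintro rfl
    exact hn (dvd_zero p)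
  have χn : ∀ g, (χ g : E) ^ n = 1 := fun g => by
    rw [← Units.val_pow_eq_pow_val, hχn g, Units.val_one]
  have χ1 : ∀ g, ‖(χ g : E)‖ = 1 := fun g => by
    have h := congrArg norm (χn g)
    rw [norm_pow, norm_one] at h
    exact (pow_eq_one_iff_of_nonneg (norm_nonneg _) hn0).1 h
  -- the normalised representation
  let W : G →* Matrix (Fin 2) (Fin 2) E :=
    { toFun := fun g => (((χ g)⁻¹ : Eˣ) : E) • (V g : Matrix (Fin 2) (Fin 2) E)
      map_one' := by simp
      map_mul' := by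
        intro a b
        rw [map_mul, map_mul, mul_inv, Units.val_mul, Units.val_mul, smul_mul_smul_comm] }
  have hW : ∀ g, W g = (((χ g)⁻¹ : Eˣ) : E) • (V g : Matrix (Fin 2) (Fin 2) E) := fun g => rfl
  have hWc : Continuous W := by
    show Continuous fun g => (((χ g)⁻¹ : Eˣ) : E) • (V g : Matrix (Fin 2) (Fin 2) E)
    exact (Units.continuous_val.comp hχc.inv).smul (Units.continuous_val.comp hV)
  have tW : ∀ g, ‖trace (W g) - 2‖ < 1 := by
    intro g
    have e : trace (W g) - 2 = (((χ g)⁻¹ : Eˣ) : E) *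
        (trace (V g : Matrix (Fin 2) (Fin 2) E) - 2 * χ g) := by
      rw [hW, trace_smul, smul_eq_mul, mul_sub, mul_left_comm, Units.inv_mul, mul_one]
    have hi : ‖(((χ g)⁻¹ : Eˣ) : E)‖ = 1 := by
      rw [Units.val_inv_eq_inv_val, norm_inv, χ1, inv_one]
    rw [e, norm_mul, hi, one_mul]
    exact htr g
  have dW : ∀ g, ‖det (W g) - 1‖ < 1 := by
    intro g
    have h1 := E_tr_sq (W g)
    have h2 := tW (g * g)
    rw [map_mul] at h2
    have e : (2 : E) * (det (W g) - 1)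
        = (trace (W g) - 2) * (trace (W g) + 2) + -(trace (W g * W g) - 2) := by
      rw [h1]; ring
    have h4 : ‖trace (W g) + 2‖ ≤ 1 := by
      have : trace (W g) + 2 = (trace (W g) - 2) + (2 + 2) := by ring
      rw [this]
      exact E_max (tW g).le (E_max n2.le n2.le)
    have h5 : ‖(2 : E) * (det (W g) - 1)‖ < 1 := by
      rw [e]
      refine lt_of_le_of_lt (IsUltrametricDist.norm_add_le_max _ _) (max_lt ?_ ?_)
      · rw [norm_mul]
        calc ‖trace (W g) - 2‖ * ‖trace (W g) + 2‖ ≤ ‖trace (W g) - 2‖ * 1 :=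
              mul_le_mul_of_nonneg_left h4 (norm_nonneg _)
          _ < 1 := by rw [mul_one]; exact tW g
      · rw [norm_neg]; exact h2
    rwa [norm_mul, n2, one_mul] at h5
  have hWt : ∀ g, Filter.Tendsto (fun m : ℕ => (W g) ^ (p ^ m)) Filter.atTop (nhds 1) := by
    intro g
    have h1 := E_CH (W g)
    have h2 : ‖trace (W g) - 1 - det (W g)‖ < 1 := by
      have : trace (W g) - 1 - det (W g) = (trace (W g) - 2) + -(det (W g) - 1) := by ring
      rw [this]
      refine lt_of_le_of_lt (IsUltrametricDist.norm_add_le_max _ _) (max_lt (tW g) ?_)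
      rw [norm_neg]; exact dW g
    have h3 := E_tendsto h1 h2 (tW g) np
    have h4 : (1 : Matrix (Fin 2) (Fin 2) E) + (W g - 1) = W g := by abel
    rwa [h4] at h3
  have kerVW : V.ker ≤ W.ker := by
    intro z hz
    rw [MonoidHom.mem_ker] at hz ⊢
    have h1 := htr z
    rw [hz, Units.val_one] at h1
    have h2 : trace (1 : Matrix (Fin 2) (Fin 2) E) = 2 := by simp
    rw [h2] at h1
    have h3 : (2 : E) - 2 * χ z = -(2 * ((χ z : E) - 1)) := by ring
    rw [h3, norm_neg, norm_mul, n2, one_mul] at h1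
    have h4 : (χ z : E) = 1 := E_root nn (χn z) (χ1 z) h1
    rw [hW, hz, Units.val_inv_eq_inv_val, h4, inv_one, one_smul, Units.val_one]
  intro x y
  by_contra hxy
  set z := x * y * x⁻¹ * y⁻¹ with hz
  have hzW : z ∉ W.ker := by
    intro h
    rw [MonoidHom.mem_ker, hW] at h
    have hχz : χ z = 1 := by
      rw [hz]
      simp only [map_mul, map_inv]
      rw [mul_comm (χ x) (χ y), mul_assoc (χ y), mul_inv_cancel, mul_one, mul_inv_cancel]
    rw [hχz, inv_one, Units.val_one, one_smul] at h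
    have hVz : V z = 1 := Units.ext h
    rw [hz, map_mul, map_mul, map_mul, map_inv, map_inv, mul_inv_eq_one, mul_inv_eq_iff_eq_mul]
      at hVz
    exact hxy hVz
  have hLc : IsClosed (W.ker : Set G) := by
    have : (W.ker : Set G) = W ⁻¹' {1} := by
      ext g
      simp [MonoidHom.mem_ker]
    rw [this]
    exact isClosed_singleton.preimage hWc
  have hOo : IsOpen {u : G | u⁻¹ * z ∉ (W.ker : Set G)} := by
    have h : Continuous fun u : G => u⁻¹ * z := by fun_prop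
    exact hLc.isOpen_compl.preimage h
  have hO1 : (1 : G) ∈ {u : G | u⁻¹ * z ∉ (W.ker : Set G)} := by
    show (1 : G)⁻¹ * z ∉ (W.ker : Set G)
    rw [inv_one, one_mul]
    exact hzW
  obtain ⟨H, hH⟩ := ProfiniteGrp.exist_openNormalSubgroup_sub_open_nhds_of_one hOo hO1
  set U : Subgroup G := H.toSubgroup ⊔ W.ker with hU
  have hHn : H.toSubgroup.Normal := H.isNormal'
  have hUn : U.Normal := by rw [hU]; infer_instance
  have hUo : IsOpen (U : Set G) :=
    Subgroup.isOpen_mono (le_sup_left : H.toSubgroup ≤ U) H.isOpen'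
  have hUc : IsCompact (U : Set G) := (U.isClosed_of_isOpen hUo).isCompact
  have hLU : W.ker ≤ U := le_sup_right
  have hzU : z ∉ U := by
    intro h
    obtain ⟨u, hu, l, hl, hul⟩ := Subgroup.mem_sup_of_normal_left.1 h
    have h1 := hH hu
    apply h1
    have : u⁻¹ * z = l := by rw [← hul]; group
    rw [this]
    exact hl
  have hfin : Finite (G ⧸ U) := U.quotient_finite_of_isOpen hUo
  have hPg : IsPGroup p (G ⧸ U) := by
    intro q
    obtain ⟨g, rfl⟩ := QuotientGroup.mk'_surjective U q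
    have hm0 : orderOf ((QuotientGroup.mk' U) g) ≠ 0 := (orderOf_pos _).ne'
    obtain ⟨a, m', hm', hm⟩ := Nat.exists_eq_pow_mul_and_not_dvd hm0 p hpp.ne_one
    refine ⟨a, ?_⟩
    set g' := g ^ (p ^ a) with hg'
    have hqm : ((QuotientGroup.mk' U) g') ^ m' = 1 := by
      rw [hg', map_pow, ← pow_mul, ← hm, pow_orderOf_eq_one]
    have hcop : Nat.Coprime p m' := (Nat.Prime.coprime_iff_not_dvd hpp).2 hm'
    have hs : ∀ j : ℕ, g'⁻¹ * g' ^ (p ^ (m'.totient * j)) ∈ U := by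
      intro j
      rw [← QuotientGroup.eq_one_iff]
      have h1 : p ^ (m'.totient * j) ≡ 1 [MOD m'] := by
        rw [pow_mul]
        have := (Nat.ModEq.pow_totient hcop).pow j
        rwa [one_pow] at this
      have h2 : ((QuotientGroup.mk' U) g') ^ (p ^ (m'.totient * j)) = (QuotientGroup.mk' U) g' := by
        have h3 : p ^ (m'.totient * j) ≡ 1 [MOD orderOf ((QuotientGroup.mk' U) g')] :=
          h1.of_dvd (orderOf_dvd_of_pow_eq_one hqm)
        rw [pow_eq_pow_iff_modEq.2 h3, pow_one]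
      show (QuotientGroup.mk' U) (g'⁻¹ * g' ^ (p ^ (m'.totient * j))) = 1
      have h5 : (QuotientGroup.mk' U) (g' ^ (p ^ (m'.totient * j))) =
          ((QuotientGroup.mk' U) g') ^ (p ^ (m'.totient * j)) := map_pow _ _ _
      rw [map_mul, map_inv, h5, h2, inv_mul_cancel]
    have hm'0 : 0 < m' := Nat.pos_of_ne_zero (by rintro rfl; exact hm' (dvd_zero p))
    let s : ℕ → G := fun j => g'⁻¹ * g' ^ (p ^ (m'.totient * j))
    obtain ⟨y', hy', hle⟩ := hUc.ultrafilter_le_nhds ((Filter.hyperfilter ℕ).map s)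
      (by
        rw [Filter.le_principal_iff]
        exact Filter.mem_map.2 (Filter.univ_mem' hs))
    have hT1 : Filter.Tendsto s (Filter.hyperfilter ℕ) (nhds y') := hle
    have hT2 : Filter.Tendsto (fun j => W (s j)) (Filter.hyperfilter ℕ) (nhds (W y')) :=
      (hWc.tendsto y').comp hT1
    have hT3 : Filter.Tendsto (fun j => W (s j)) Filter.atTop (nhds (W g'⁻¹)) := by
      have h1 : Filter.Tendsto (fun j : ℕ => m'.totient * j) Filter.atTop Filter.atTop :=
        Filter.tendsto_id.const_mul_atTop' (Nat.totient_pos.2 hm'0)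
      have h2 := (hWt g').comp h1
      have h3 : (fun j => W (s j)) = fun j => W g'⁻¹ *
          ((fun m : ℕ => (W g') ^ (p ^ m)) ∘ fun j : ℕ => m'.totient * j) j := by
        funext j
        show W (g'⁻¹ * g' ^ (p ^ (m'.totient * j))) = W g'⁻¹ * (W g') ^ (p ^ (m'.totient * j))
        rw [map_mul, map_pow]
      rw [h3]
      have h4 := h2.const_mul (W g'⁻¹)
      rwa [mul_one] at h4
    have hT4 : Filter.Tendsto (fun j => W (s j)) (Filter.hyperfilter ℕ) (nhds (W g'⁻¹)) :=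
      hT3.mono_left Nat.hyperfilter_le_atTop
    have hyW : W y' = W g'⁻¹ := tendsto_nhds_unique hT2 hT4
    have hgy : g' * y' ∈ W.ker := by
      rw [MonoidHom.mem_ker, map_mul, hyW, ← map_mul, mul_inv_cancel, map_one]
    have hgU : g' ∈ U := by
      have h1 := U.mul_mem (hLU hgy) (U.inv_mem hy')
      rwa [mul_inv_cancel_right] at h1
    rw [← map_pow]
    exact (QuotientGroup.eq_one_iff g').2 hgU
  have hne : (QuotientGroup.mk' U) x * (QuotientGroup.mk' U) y
      ≠ (QuotientGroup.mk' U) y * (QuotientGroup.mk' U) x := by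
    intro h
    apply hzU
    rw [← QuotientGroup.eq_one_iff]
    show (QuotientGroup.mk' U) z = 1
    rw [hz, map_mul, map_mul, map_mul, map_inv, map_inv, mul_inv_eq_one, mul_inv_eq_iff_eq_mul]
    exact h
  obtain ⟨φ₁, φ₂, hφ₁, hφ₂⟩ := E_pgroup hPg hne
  have hdisc : DiscreteTopology (G ⧸ U) := QuotientGroup.discreteTopology hUo
  have hcont : ∀ φ : G ⧸ U →* Multiplicative (ZMod p),
      Continuous (φ.comp (QuotientGroup.mk' U)) := fun φ =>
    (continuous_of_discreteTopology (f := φ)).comp QuotientGroup.continuous_mk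
  have hker : ∀ φ : G ⧸ U →* Multiplicative (ZMod p), V.ker ≤ (φ.comp (QuotientGroup.mk' U)).ker := by
    intro φ g hg
    rw [MonoidHom.mem_ker, MonoidHom.comp_apply]
    have : (QuotientGroup.mk' U) g = 1 := (QuotientGroup.eq_one_iff g).2 (hLU (kerVW hg))
    rw [this, map_one]
  have hdown : ∀ φ ψ : G ⧸ U →* Multiplicative (ZMod p),
      (φ.comp (QuotientGroup.mk' U)).ker ≤ (ψ.comp (QuotientGroup.mk' U)).ker → φ.ker ≤ ψ.ker := by
    intro φ ψ h q hq
    obtain ⟨g, rfl⟩ := QuotientGroup.mk'_surjective U q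
    have : g ∈ (φ.comp (QuotientGroup.mk' U)).ker := hq
    exact h this
  rcases hone _ _ (hcont φ₁) (hcont φ₂) (hker φ₁) (hker φ₂) with h | h
  · exact hφ₁ (hdown _ _ h)
  · exact hφ₂ (hdown _ _ h)

end Pool.Agent.Helper60.FM
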