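import Pool.Agent.Helper60.FM.Defs

/-!
# The residue ring of an ultrametric normed field
-/

namespace Pool.Agent.Helper60.FM

section

variable (E : Type*) [NormedField E] [IsUltrametricDist E]

theorem norm_add_le_one {x y : E} (hx : ‖x‖ ≤ 1) (hy : ‖y‖ ≤ 1) : ‖x + y‖ ≤ 1 :=
  (IsUltrametricDist.norm_add_le_max x y).trans (max_le hx hy)

theorem norm_add_lt_one {x y : E} (hx : ‖x‖ < 1) (hy : ‖y‖ < 1) : ‖x + y‖ < 1 :=
  (IsUltrametricDist.norm_add_le_max x y).trans_lt (max_lt hx hy)

/-- the closed unit ball -/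
def OE : Subring E where
  carrier := {x | ‖x‖ ≤ 1}
  zero_mem' := by simp
  one_mem' := by simp
  add_mem' := fun {x y} hx hy => norm_add_le_one E hx hy
  mul_mem' := by
    intro x y hx hy
    simp only [Set.mem_setOf_eq, norm_mul] at *
    exact mul_le_one₀ hx (norm_nonneg _) hy
  neg_mem' := by
    intro x hx
    simpa using hx

/-- the open unit ball -/
def mE : Ideal (OE E) where
  carrier := {x | ‖(x : E)‖ < 1}
  zero_mem' := by simp
  add_mem' := by
    intro x y hx hy
    simp only [Set.mem_setOf_eq, Subring.coe_add] at *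
    exact norm_add_lt_one E hx hy
  smul_mem' := by
    intro c x hx
    simp only [Set.mem_setOf_eq, smul_eq_mul, Subring.coe_mul, norm_mul] at *
    exact mul_lt_one_of_nonneg_of_lt_one_right c.2 (norm_nonneg _) hx

theorem mem_mE (x : OE E) : x ∈ mE E ↔ ‖(x : E)‖ < 1 := Iff.rfl

instance : (mE E).IsPrime where
  ne_top' := by
    rw [Ideal.ne_top_iff_one, mem_mE]
    simp
  mem_or_mem' := by
    intro x y hxy
    rw [mem_mE, Subring.coe_mul, norm_mul] at hxy
    rw [mem_mE, mem_mE]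
    by_contra hcon
    push Not at hcon
    have hx : ‖(x : E)‖ = 1 := le_antisymm x.2 hcon.1
    have hy : ‖(y : E)‖ = 1 := le_antisymm y.2 hcon.2
    rw [hx, hy] at hxy
    norm_num at hxy

/-- the residue ring -/
abbrev kE : Type _ := OE E ⧸ mE E

instance : IsDomain (kE E) := Ideal.Quotient.isDomain _

variable {E}

open Classical in
/-- reduction -/
noncomputable def red (x : E) : kE E :=
  if h : ‖x‖ ≤ 1 then Ideal.Quotient.mk (mE E) ⟨x, h⟩ else 0

theorem red_eq {x : E} (h : ‖x‖ ≤ 1) : red x = Ideal.Quotient.mk (mE E) ⟨x, h⟩ := by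
  rw [red, dif_pos h]

theorem red_add {x y : E} (hx : ‖x‖ ≤ 1) (hy : ‖y‖ ≤ 1) : red (x + y) = red x + red y := by
  rw [red_eq hx, red_eq hy, red_eq (norm_add_le_one E hx hy), ← map_add]
  rfl

theorem red_mul {x y : E} (hx : ‖x‖ ≤ 1) (hy : ‖y‖ ≤ 1) : red (x * y) = red x * red y := by
  have h : ‖x * y‖ ≤ 1 := by rw [norm_mul]; exact mul_le_one₀ hx (norm_nonneg _) hy
  rw [red_eq hx, red_eq hy, red_eq h, ← map_mul]
  rfl

theorem red_one : red (1 : E) = 1 := by
  rw [red_eq (by simp), ← map_one (Ideal.Quotient.mk (mE E))]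
  rfl

theorem red_zero : red (0 : E) = 0 := by
  rw [red_eq (by simp), ← map_zero (Ideal.Quotient.mk (mE E))]
  rfl

theorem red_neg {x : E} (hx : ‖x‖ ≤ 1) : red (-x) = - red x := by
  have h := red_add (E := E) (x := -x) (y := x) (by simpa using hx) hx
  rw [neg_add_cancel, red_zero] at h
  exact eq_neg_of_add_eq_zero_left h.symm

theorem red_sub {x y : E} (hx : ‖x‖ ≤ 1) (hy : ‖y‖ ≤ 1) : red (x - y) = red x - red y := by
  rw [sub_eq_add_neg, red_add hx (by simpa using hy), red_neg hy, sub_eq_add_neg]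

theorem red_eq_zero {x : E} (hx : ‖x‖ ≤ 1) : red x = 0 ↔ ‖x‖ < 1 := by
  rw [red_eq hx, Ideal.Quotient.eq_zero_iff_mem, mem_mE]

theorem red_eq_red {x y : E} (hx : ‖x‖ ≤ 1) (hy : ‖y‖ ≤ 1) : red x = red y ↔ ‖x - y‖ < 1 := by
  rw [← sub_eq_zero, ← red_sub hx hy, red_eq_zero]
  rw [sub_eq_add_neg]
  exact norm_add_le_one E hx (by simpa using hy)

theorem norm_natCast_le_one (n : ℕ) : ‖(n : E)‖ ≤ 1 := IsUltrametricDist.norm_natCast_le_one E n

theorem red_natCast (n : ℕ) : red (n : E) = (n : kE E) := by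
  induction n with
  | zero => rw [Nat.cast_zero, Nat.cast_zero, red_zero]
  | succ n ih =>
    rw [Nat.cast_succ, Nat.cast_succ, red_add (norm_natCast_le_one n) (by simp), ih, red_one]

theorem red_sum {ι : Type*} (s : Finset ι) (f : ι → E) (hf : ∀ i ∈ s, ‖f i‖ ≤ 1) :
    ‖∑ i ∈ s, f i‖ ≤ 1 ∧ red (∑ i ∈ s, f i) = ∑ i ∈ s, red (f i) := by
  classical
  induction s using Finset.induction_on with
  | empty => simp [red_zero]
  | insert a s ha ih =>
    have h1 := ih (fun i hi => hf i (Finset.mem_insert_of_mem hi))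
    have h2 := hf a (Finset.mem_insert_self a s)
    rw [Finset.sum_insert ha, Finset.sum_insert ha]
    exact ⟨norm_add_le_one E h2 h1.1, by rw [red_add h2 h1.1, h1.2]⟩

end

section

variable {p : ℕ} [hp : Fact p.Prime] {E : Type*} [NormedField E] [IsUltrametricDist E]
  [NormedAlgebra ℚ_[p] E]

theorem norm_natCast_lt_one_iff (n : ℕ) : ‖(n : E)‖ < 1 ↔ p ∣ n := by
  have h1 : (n : E) = algebraMap ℚ_[p] E (n : ℚ_[p]) := by simp
  rw [h1, norm_algebraMap']
  exact Padic.norm_natCast_lt_one_iff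

theorem norm_natCast_eq_one {n : ℕ} (h : ¬ p ∣ n) : ‖(n : E)‖ = 1 := by
  apply le_antisymm (norm_natCast_le_one n)
  by_contra hcon
  push Not at hcon
  exact h ((norm_natCast_lt_one_iff n).1 hcon)

variable (p) in
theorem natCast_kE_eq_zero : ((p : ℕ) : kE E) = 0 := by
  rw [← red_natCast, red_eq_zero (norm_natCast_le_one p)]
  exact (norm_natCast_lt_one_iff p).2 dvd_rfl

variable (p E) in
theorem charP_kE : CharP (kE E) p := by
  have h := CharP.exists (kE E)
  obtain ⟨q, hq⟩ := h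
  have h1 : q ∣ p := (CharP.cast_eq_zero_iff (kE E) q p).1 (natCast_kE_eq_zero p)
  rcases (Nat.dvd_prime hp.out).1 h1 with h2 | h2
  · subst h2
    exfalso
    have : ((1 : ℕ) : kE E) = 0 := CharP.cast_eq_zero (kE E) 1
    rw [Nat.cast_one] at this
    exact one_ne_zero this
  · rw [← h2]; exact hq

end

/-- In a domain of characteristic `p`, the nonzero elements of a subring generated by finitely
many elements of finite order have finite order. -/
theorem finite_order {p : ℕ} [hp : Fact p.Prime] {R : Type*} [CommRing R] [IsDomain R] [CharP R p]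
    (s : Set R) (hs : s.Finite) (h : ∀ x ∈ s, ∃ n : ℕ, 0 < n ∧ x ^ n = 1)
    (z : R) (hz : z ∈ Subring.closure s) (hz0 : z ≠ 0) : ∃ n : ℕ, 0 < n ∧ z ^ n = 1 := by
  letI : Algebra (ZMod p) R := ZMod.algebra R p
  let A := Algebra.adjoin (ZMod p) s
  have hfin : Finite A := by
    have h1 : (Subalgebra.toSubmodule A).FG := by
      apply fg_adjoin_of_finite hs
      intro x hx
      obtain ⟨n, hn, hxn⟩ := h x hx
      apply IsIntegral.of_pow hn
      rw [hxn]
      exact isIntegral_one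
    have h2 : Module.Finite (ZMod p) A := Module.Finite.iff_fg.2 h1
    exact Module.finite_of_finite (ZMod p)
  have hle : Subring.closure s ≤ A.toSubring := by
    rw [Subring.closure_le]
    exact Algebra.subset_adjoin
  have hzA : z ∈ A := hle hz
  obtain ⟨i, j, hij, h2⟩ := Finite.exists_ne_map_eq_of_infinite (fun n : ℕ => (⟨z, hzA⟩ : A) ^ n)
  have key : ∀ i j : ℕ, i < j → z ^ i = z ^ j → ∃ n : ℕ, 0 < n ∧ z ^ n = 1 := by
    intro i j hij h
    refine ⟨j - i, Nat.sub_pos_of_lt hij, ?_⟩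
    have h3 : z ^ i * z ^ (j - i) = z ^ i * 1 := by
      rw [← pow_add, Nat.add_sub_cancel' hij.le, mul_one, h]
    exact mul_left_cancel₀ (pow_ne_zero _ hz0) h3
  have h3 : z ^ i = z ^ j := congrArg Subtype.val h2
  rcases lt_or_gt_of_ne hij with h4 | h4
  · exact key i j h4 h3
  · exact key j i h4 h3.symm

end Pool.Agent.Helper60.FM
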