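import Pool.Agent.Helper60.FM.CC
import Pool.Agent.Helper60.FM.Res
import Pool.Agent.Helper60.FM.ModA
import Pool.Agent.Helper60.FM.ModC2
import Pool.Agent.Helper60.FM.ModD
import Pool.Agent.Helper60.FM.ModE

/-!
# Auxiliary results for the main theorem
-/

open NumberField Pointwise Matrix

namespace Pool.Agent.Helper60.FM

/-- Open normal subgroups of `GQ` correspond to finite Galois extensions. -/
theorem open_field (N : Subgroup GQ) [hN : N.Normal] (ho : IsOpen (N : Set GQ)) :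
    FiniteDimensional ℚ (IntermediateField.fixedField N) ∧
      IsGalois ℚ (IntermediateField.fixedField N) ∧
      (IntermediateField.fixedField N).fixingSubgroup = N := by
  have hc : IsClosed (N : Set GQ) := Subgroup.isClosed_of_isOpen N ho
  have h1 : (IntermediateField.fixedField N).fixingSubgroup = N :=
    InfiniteGalois.fixingSubgroup_fixedField ⟨N, hc⟩
  have h2 := (InfiniteGalois.isOpen_and_normal_iff_finite_and_isGalois
    (IntermediateField.fixedField N)).1 ⟨by rw [h1]; exact ho, by rw [h1]; exact hN⟩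
  exact ⟨h2.1, h2.2, h1⟩

section omega

variable {p : ℕ} [hp : Fact p.Prime] {K : Type*} [Field K] [NumberField K] {ζ : K}
  {ω : Gal(K/ℚ) → ℕ}

omit hp in
theorem dvd_of_pow_eq (hζ : IsPrimitiveRoot ζ p) (h0 : ζ ≠ 0) {a b : ℕ} (h : ζ ^ a = ζ ^ b) :
    (p : ℤ) ∣ (b : ℤ) - a := by
  rw [← hζ.zpow_eq_one_iff_dvd, zpow_sub₀ h0, zpow_natCast, zpow_natCast, h,
    div_self (pow_ne_zero _ h0)]

theorem omega_mul (hζ : IsPrimitiveRoot ζ p) (hω : ∀ σ : Gal(K/ℚ), σ ζ = ζ ^ ω σ)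
    {R : Type*} [CommRing R] (hR : (p : R) = 0) (σ τ : Gal(K/ℚ)) :
    (ω (σ * τ) : R) = ω σ * ω τ := by
  have h1 : ζ ^ ω (σ * τ) = ζ ^ (ω σ * ω τ) := by
    rw [← hω, AlgEquiv.mul_apply, hω τ, map_pow, hω σ, ← pow_mul]
  have h4 : ∀ a b : ℕ, ζ ^ a = ζ ^ b → (a : R) = (b : R) := by
    intro a b hab
    obtain ⟨c, hc⟩ := dvd_of_pow_eq hζ (hζ.ne_zero hp.out.ne_zero) hab
    have h6 : ((b : ℤ) : R) - ((a : ℤ) : R) = ((p : ℤ) : R) * c := by
      rw [← Int.cast_sub, hc, Int.cast_mul]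
    simp only [Int.cast_natCast, hR, zero_mul] at h6
    exact (sub_eq_zero.1 h6).symm
  rw [h4 _ _ h1, Nat.cast_mul]

theorem omega_one (hζ : IsPrimitiveRoot ζ p) (hω : ∀ σ : Gal(K/ℚ), σ ζ = ζ ^ ω σ)
    {R : Type*} [CommRing R] [IsDomain R] (hR : (p : R) = 0) : (ω (1 : Gal(K/ℚ)) : R) = 1 := by
  have h1 := omega_mul hζ hω hR (1 : Gal(K/ℚ)) 1
  rw [mul_one] at h1
  have h0 : (ω (1 : Gal(K/ℚ)) : R) ≠ 0 := by
    intro h0
    have h2 : ζ ^ ω (1 : Gal(K/ℚ)) = ζ ^ 1 := by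
      rw [← hω, pow_one]; rfl
    obtain ⟨c, hc⟩ := dvd_of_pow_eq hζ (hζ.ne_zero hp.out.ne_zero) h2
    have h6 : (((1 : ℕ) - (ω (1 : Gal(K/ℚ)) : ℤ) : ℤ) : R) = ((p : ℤ) : R) * c := by
      rw [hc, Int.cast_mul]
    rw [Int.cast_sub] at h6
    simp only [Int.cast_natCast, hR, zero_mul, h0, Nat.cast_one, Int.cast_one, sub_zero] at h6
    exact one_ne_zero h6
  exact mul_left_cancel₀ h0 (by rw [mul_one]; exact h1.symm)

/-- the cyclotomic character with values in a domain of characteristic `p` -/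
noncomputable def omHom (hζ : IsPrimitiveRoot ζ p) (hω : ∀ σ : Gal(K/ℚ), σ ζ = ζ ^ ω σ)
    {R : Type*} [CommRing R] [IsDomain R] (hR : (p : R) = 0) : Gal(K/ℚ) →* R where
  toFun σ := (ω σ : R)
  map_one' := omega_one hζ hω hR
  map_mul' := omega_mul hζ hω hR

theorem omega_ne_zero (hζ : IsPrimitiveRoot ζ p) (hω : ∀ σ : Gal(K/ℚ), σ ζ = ζ ^ ω σ)
    {R : Type*} [CommRing R] [IsDomain R] (hR : (p : R) = 0) (σ : Gal(K/ℚ)) :
    (ω σ : R) ≠ 0 := by
  intro h
  have h1 := omega_mul hζ hω hR σ σ⁻¹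
  rw [mul_inv_cancel, omega_one hζ hω hR, h, zero_mul] at h1
  exact one_ne_zero h1

theorem omega_conj [IsCMField K] (hζ : IsPrimitiveRoot ζ p)
    (hω : ∀ σ : Gal(K/ℚ), σ ζ = ζ ^ ω σ) {R : Type*} [CommRing R] (hR : (p : R) = 0)
    (c : Gal(K/ℚ)) (hc : ∀ x : K, c x = IsCMField.complexConj K x) : (ω c : R) = -1 := by
  have h1 : c ζ = ζ⁻¹ := by
    rw [hc]
    let φ : K →+* ℂ := Classical.choice (inferInstance : Nonempty _)
    apply φ.injective
    rw [IsCMField.complexEmbedding_complexConj, map_inv₀]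
    have h2 : (φ ζ) ^ p = 1 := by rw [← map_pow, hζ.pow_eq_one, map_one]
    have h3 : ‖φ ζ‖ = 1 := Complex.norm_eq_one_of_pow_eq_one h2 hp.out.ne_zero
    exact (Complex.inv_eq_conj h3).symm
  have h2 : ζ ^ (ω c + 1) = 1 := by
    rw [pow_succ, ← hω, h1, inv_mul_cancel₀ (hζ.ne_zero hp.out.ne_zero)]
  have h3 := hζ.dvd_of_pow_eq_one _ h2
  obtain ⟨d, hd⟩ := h3
  have h4 : ((ω c + 1 : ℕ) : R) = 0 := by rw [hd, Nat.cast_mul, hR, zero_mul]
  rw [Nat.cast_add, Nat.cast_one] at h4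
  exact eq_neg_of_add_eq_zero_left h4

end omega

section chi

variable {E : Type*} [NormedField E] [IsUltrametricDist E]

theorem norm_chi {G : Type*} [Group G] [Finite G] (χ : G →* Eˣ) (g : G) : ‖(χ g : E)‖ = 1 := by
  have h1 : (χ g : E) ^ Nat.card G = 1 := by
    rw [← Units.val_pow_eq_pow_val, ← map_pow, pow_card_eq_one', map_one, Units.val_one]
  have h2 : ‖(χ g : E)‖ ^ Nat.card G = 1 := by rw [← norm_pow, h1, norm_one]
  exact (pow_eq_one_iff_of_nonneg (norm_nonneg _) Nat.card_pos.ne').1 h2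

/-- reduction of a character -/
noncomputable def redHom {G : Type*} [Group G] [Finite G] (χ : G →* Eˣ) : G →* kE E where
  toFun g := red (χ g : E)
  map_one' := by rw [map_one, Units.val_one, red_one]
  map_mul' := by
    intro g h
    rw [map_mul, Units.val_mul, red_mul (norm_chi χ g).le (norm_chi χ h).le]

theorem redHom_apply {G : Type*} [Group G] [Finite G] (χ : G →* Eˣ) (g : G) :
    redHom χ g = red (χ g : E) := rfl

end chi

section trace

variable {E : Type*} [NormedField E] [IsUltrametricDist E]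

omit [IsUltrametricDist E] in
theorem trace_mul_self (A : Matrix (Fin 2) (Fin 2) E) :
    trace (A * A) = trace A ^ 2 - 2 * det A := by
  rw [Matrix.trace_fin_two, Matrix.trace_fin_two, Matrix.det_fin_two]
  simp only [Matrix.mul_apply, Fin.sum_univ_two]
  ring

theorem sub_lt_one_trans {x y z : E} (h1 : ‖x - y‖ < 1) (h2 : ‖y - z‖ < 1) : ‖x - z‖ < 1 := by
  have h := norm_add_lt_one E h1 h2
  rwa [sub_add_sub_cancel] at h

theorem mul_sub_mul_lt {x x' y y' : E} (hx : ‖x‖ ≤ 1) (hy' : ‖y'‖ ≤ 1) (h1 : ‖x - x'‖ < 1)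
    (h2 : ‖y - y'‖ < 1) : ‖x * y - x' * y'‖ < 1 := by
  have h3 : x * y - x' * y' = x * (y - y') + (x - x') * y' := by ring
  rw [h3]
  apply norm_add_lt_one
  · rw [norm_mul]
    exact mul_lt_one_of_nonneg_of_lt_one_right hx (norm_nonneg _) h2
  · rw [norm_mul]
    exact mul_lt_one_of_nonneg_of_lt_one_left (norm_nonneg _) h1 hy'

theorem det_of_trace (h2 : ‖(2 : E)‖ = 1) {G : Type*} [Group G] (V : G →* GL (Fin 2) E)
    (χ₁ χ₂ : G →* Eˣ) (h₁ : ∀ g, ‖(χ₁ g : E)‖ = 1) (h₂ : ∀ g, ‖(χ₂ g : E)‖ = 1)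
    (htr : ∀ g, ‖trace (V g : Matrix (Fin 2) (Fin 2) E) - χ₁ g - χ₂ g‖ < 1) (g : G) :
    ‖det (V g : Matrix (Fin 2) (Fin 2) E) - χ₁ g * χ₂ g‖ < 1 := by
  set A : Matrix (Fin 2) (Fin 2) E := (V g : Matrix (Fin 2) (Fin 2) E) with hA
  have e1 := trace_mul_self A
  have e2 : trace (A * A) = trace (V (g * g) : Matrix (Fin 2) (Fin 2) E) := by
    rw [map_mul]; rfl
  have e3 := htr (g * g)
  rw [← e2] at e3
  have e4 := htr g
  rw [← hA, sub_sub] at e4
  have hs : ‖(χ₁ g : E) + χ₂ g‖ ≤ 1 := norm_add_le_one E (h₁ g).le (h₂ g).le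
  have ht : ‖trace A‖ ≤ 1 := by
    have := norm_add_le_one E e4.le hs
    rwa [sub_add_cancel] at this
  have e5 := mul_sub_mul_lt ht hs e4 e4
  have e6 : (2 : E) * (det A - χ₁ g * χ₂ g) =
      (trace A * trace A - (χ₁ g + χ₂ g) * (χ₁ g + χ₂ g)) +
        -(trace (A * A) - χ₁ (g * g) - χ₂ (g * g)) := by
    rw [e1, map_mul, map_mul, Units.val_mul, Units.val_mul]
    ring
  have e7 : ‖(2 : E) * (det A - χ₁ g * χ₂ g)‖ < 1 := by
    rw [e6]
    exact norm_add_lt_one E e5 (by rw [norm_neg]; exact e3)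
  rwa [norm_mul, h2, one_mul] at e7

/-- parity of the two characters -/
theorem chi_eq_of_det_one (h2 : ‖(2 : E)‖ = 1) {G : Type*} [Group G] (V : G →* GL (Fin 2) E)
    (x₁ x₂ : E) (c : G) (hc : c * c = 1) (h₁ : x₁ * x₁ = 1) (h₂ : x₂ * x₂ = 1)
    (htr : ‖trace (V c : Matrix (Fin 2) (Fin 2) E) - x₁ - x₂‖ < 1)
    (hdet : det (V c : Matrix (Fin 2) (Fin 2) E) = 1) : x₁ = x₂ := by
  set A : Matrix (Fin 2) (Fin 2) E := (V c : Matrix (Fin 2) (Fin 2) E) with hA
  have e1 := trace_mul_self A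
  have e2 : A * A = 1 := by
    have : ((V c * V c : GL (Fin 2) E) : Matrix (Fin 2) (Fin 2) E) = 1 := by
      rw [← map_mul, hc, map_one]; rfl
    exact this
  rw [e2, hdet, Matrix.trace_one, Fintype.card_fin] at e1
  have e3 : trace A ^ 2 = 2 * 2 := by
    push_cast at e1
    linear_combination -e1
  have hn : ‖trace A‖ = 1 := by
    have h3 : ‖trace A‖ ^ 2 = 1 := by
      rw [← norm_pow, e3, norm_mul, h2, one_mul]
    exact (pow_eq_one_iff_of_nonneg (norm_nonneg _) two_ne_zero).1 h3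
  by_contra hne
  have h3 : (x₁ - x₂) * (x₁ + x₂) = 0 := by linear_combination h₁ - h₂
  rcases mul_eq_zero.1 h3 with h4 | h4
  · exact hne (sub_eq_zero.1 h4)
  · rw [sub_sub, h4, sub_zero, hn] at htr
    exact lt_irrefl _ htr

end trace

end Pool.Agent.Helper60.FM
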