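import Pool.Agent.Helper60.FM.ModB

/-!
# Complex conjugations
-/

open NumberField Pointwise

namespace Pool.Agent.Helper60.FM

/-- A number field containing a primitive root of unity of odd prime order is totally complex. -/
theorem isTotallyComplex_of_prim {p : ℕ} (hp : 2 < p) (K : Type*) [Field K] [NumberField K]
    (ζ : K) (hζ : IsPrimitiveRoot ζ p) : IsTotallyComplex K := by
  refine ⟨fun w => ?_⟩
  rw [← InfinitePlace.not_isReal_iff_isComplex]
  intro hw
  have h1 : ComplexEmbedding.IsReal w.embedding := InfinitePlace.isReal_iff.1 hw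
  have h2 : IsPrimitiveRoot (w.embedding ζ) p := hζ.map_of_injective w.embedding.injective
  have h3 : starRingEnd ℂ (w.embedding ζ) = w.embedding ζ := by
    have := RingHom.congr_fun h1 ζ
    simpa [ComplexEmbedding.conjugate_coe_eq] using this
  obtain ⟨r, hr⟩ := Complex.conj_eq_iff_real.1 h3
  have h4 : r ^ p = 1 := by
    have := h2.pow_eq_one
    rw [hr] at this
    exact_mod_cast this
  have h5 : r ^ 2 = 1 := by
    have h6 : |r| = 1 := by
      have h7 : |r| ^ p = 1 := by rw [← abs_pow, h4, abs_one]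
      exact (pow_eq_one_iff_of_nonneg (abs_nonneg r) (by omega)).1 h7
    rw [← sq_abs, h6, one_pow]
  have h6 : (w.embedding ζ) ^ 2 = 1 := by
    rw [hr]
    exact_mod_cast h5
  have h7 := h2.dvd_of_pow_eq_one 2 h6
  exact absurd (Nat.le_of_dvd (by norm_num) h7) (by omega)

theorem isCC_mul_self {c : GQ} (hc : IsCC c) : c * c = 1 := by
  obtain ⟨ι, hι⟩ := hc
  ext x
  apply ι.injective
  change ι (c (c x)) = ι x
  rw [hι, hι, Complex.conj_conj]

theorem isCC_res {c : GQ} (hc : IsCC c) (K : IntermediateField ℚ Qb) [FiniteDimensional ℚ K]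
    [Normal ℚ K] [IsCMField K] (x : K) : res K c x = IsCMField.complexConj K x := by
  obtain ⟨ι, hι⟩ := hc
  let φ : K →+* ℂ := ι.comp (algebraMap K Qb)
  apply φ.injective
  rw [IsCMField.complexEmbedding_complexConj]
  change ι ((res K c x : K) : Qb) = starRingEnd ℂ (ι (x : Qb))
  rw [coe_res, hι]

instance isGalois_Qb : IsGalois ℚ Qb := inferInstance

theorem exists_isCC : ∃ c : GQ, IsCC c := by
  let ι : Qb →+* ℂ := (IsAlgClosed.lift (R := ℚ) (S := Qb) (M := ℂ)).toRingHom
  let ι' : Qb →+* ℂ := (starRingEnd ℂ).comp ι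
  obtain ⟨σ, hσ⟩ := ComplexEmbedding.exists_comp_symm_eq_of_comp_eq (k := ℚ) ι ι'
    (Subsingleton.elim _ _)
  refine ⟨σ.symm, ι, fun x => ?_⟩
  exact RingHom.congr_fun hσ x

end Pool.Agent.Helper60.FM
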