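import Pool.Agent.Helper60.FM.Defs

/-!
# Module B: Kummer data
-/

open NumberField Pointwise

namespace Pool.Agent.Helper60.FM

/-- Equivariant Kummer data over a commutative ring `R` (think of the residue field):
`F k y = f (y · b(k))`. -/
structure KData (p : ℕ) (K : IntermediateField ℚ Qb) [Normal ℚ K] (ω : Gal(K/ℚ) → ℕ)
    (R : Type*) [CommRing R] where
  ψ : Gal(K/ℚ) →* R
  F : GQ → R →+ ZMod p
  F_mul : ∀ k ∈ K.fixingSubgroup, ∀ k' ∈ K.fixingSubgroup, ∀ y, F (k * k') y = F k y + F k' y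
  F_conj : ∀ g : GQ, ∀ k ∈ K.fixingSubgroup, ∀ y,
    (ω (res K g) : ZMod p) * F (g⁻¹ * k * g) y = F k (ψ (res K g) * y)
  ne : ∃ k ∈ K.fixingSubgroup, F k 1 ≠ 0
  fo : ∀ z ∈ Subring.closure (Set.range ψ), z ≠ 0 → ∃ n : ℕ, 0 < n ∧ z ^ n = 1

theorem coe_res (K : IntermediateField ℚ Qb) [Normal ℚ K] (g : GQ) (x : K) :
    ((res K g x : K) : Qb) = g (x : Qb) :=
  AlgEquiv.restrictNormal_commutes g K x

theorem conj_mem_fix (K : IntermediateField ℚ Qb) [Normal ℚ K] (g : GQ) {k : GQ}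
    (hk : k ∈ K.fixingSubgroup) : g⁻¹ * k * g ∈ K.fixingSubgroup := by
  rw [IntermediateField.mem_fixingSubgroup_iff] at hk ⊢
  intro x hx
  have h1 : g x = ((res K g ⟨x, hx⟩ : K) : Qb) := (coe_res K g ⟨x, hx⟩).symm
  have h2 : k (g x) = g x := by
    rw [h1]
    exact hk _ (res K g ⟨x, hx⟩).2
  change g⁻¹ (k (g x)) = x
  rw [h2]
  exact g.symm_apply_apply x

section zp

variable {p : ℕ} [hp : Fact p.Prime] {F : Type*} [Field F] {ζ : F} (hζ : IsPrimitiveRoot ζ p)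

include hζ

theorem zp_natCast (n : ℕ) : ζ ^ ((n : ZMod p)).val = ζ ^ n := by
  rw [ZMod.val_natCast]
  conv_rhs => rw [← Nat.mod_add_div n p, pow_add, pow_mul, hζ.pow_eq_one, one_pow, mul_one]

theorem zp_add (a b : ZMod p) : ζ ^ (a + b).val = ζ ^ a.val * ζ ^ b.val := by
  have h := zp_natCast hζ (a.val + b.val)
  rw [Nat.cast_add, ZMod.natCast_zmod_val, ZMod.natCast_zmod_val] at h
  rw [h, pow_add]

theorem zp_natmul (n : ℕ) (b : ZMod p) : ζ ^ ((n : ZMod p) * b).val = (ζ ^ b.val) ^ n := by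
  have h := zp_natCast hζ (n * b.val)
  rw [Nat.cast_mul, ZMod.natCast_zmod_val] at h
  rw [h, ← pow_mul, mul_comm]

theorem zp_neg (a : ZMod p) : ζ ^ (-a).val = (ζ ^ a.val)⁻¹ := by
  have h := zp_add hζ (-a) a
  rw [neg_add_cancel, ZMod.val_zero, pow_zero] at h
  exact eq_inv_of_mul_eq_one_left h.symm

theorem zp_ne_zero (a : ZMod p) : ζ ^ a.val ≠ 0 :=
  pow_ne_zero _ (hζ.ne_zero hp.out.ne_zero)

theorem zp_inj {a b : ZMod p} (h : ζ ^ a.val = ζ ^ b.val) : a = b := by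
  have := hζ.pow_inj (ZMod.val_lt a) (ZMod.val_lt b) h
  exact ZMod.val_injective p this

end zp

namespace KData

variable {p : ℕ} [hp : Fact p.Prime] {K : IntermediateField ℚ Qb} [FiniteDimensional ℚ K]
  [IsGalois ℚ K] {ω : Gal(K/ℚ) → ℕ} {R : Type*} [CommRing R] [IsDomain R]
  (D : KData p K ω R) (ζ : K) (hζ : IsPrimitiveRoot ζ p) (hω : ∀ σ : Gal(K/ℚ), σ ζ = ζ ^ ω σ)

/-- `x ∈ Qb` has type `y ∈ R` -/
def Ty (D : KData p K ω R) (ζ : K) (x : Qb) (y : R) : Prop :=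
  ∀ k ∈ K.fixingSubgroup, k x = (ζ : Qb) ^ (D.F k y).val * x

theorem coe_prim {ζ : K} (hζ : IsPrimitiveRoot ζ p) : IsPrimitiveRoot (ζ : Qb) p :=
  hζ.map_of_injective (f := K.val) K.val.injective

include hζ

theorem ty_mul {x x' : Qb} {y y' : R} (h : D.Ty ζ x y) (h' : D.Ty ζ x' y') :
    D.Ty ζ (x * x') (y + y') := by
  intro k hk
  rw [map_mul, h k hk, h' k hk, map_add, zp_add (coe_prim hζ)]
  ring

theorem ty_of_mem {x : Qb} (h : x ∈ K) : D.Ty ζ x 0 := by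
  intro k hk
  rw [map_zero, ZMod.val_zero, pow_zero, one_mul]
  exact (IntermediateField.mem_fixingSubgroup_iff K k).1 hk x h

theorem mem_of_ty {x : Qb} (h : D.Ty ζ x 0) : x ∈ K := by
  rw [← InfiniteGalois.fixedField_fixingSubgroup K, IntermediateField.mem_fixedField_iff]
  intro k hk
  rw [h k hk, map_zero, ZMod.val_zero, pow_zero, one_mul]

theorem ty_inv {x : Qb} {y : R} (h : D.Ty ζ x y) : D.Ty ζ x⁻¹ (-y) := by
  intro k hk
  rw [map_inv₀, h k hk, map_neg, zp_neg (coe_prim hζ), mul_inv]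

theorem ty_pow {x : Qb} {y : R} (h : D.Ty ζ x y) (n : ℕ) : D.Ty ζ (x ^ n) (n * y) := by
  induction n with
  | zero =>
    rw [pow_zero, Nat.cast_zero, zero_mul]
    exact D.ty_of_mem ζ hζ K.one_mem
  | succ n ih =>
    rw [pow_succ, Nat.cast_succ, add_mul, one_mul]
    exact D.ty_mul ζ hζ ih h

include hω in
theorem ty_smul {x : Qb} {y : R} (h : D.Ty ζ x y) (g : GQ) :
    D.Ty ζ (g x) (D.ψ (res K g) * y) := by
  intro k hk
  have h1 : k (g x) = g ((g⁻¹ * k * g) x) := by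
    change k (g x) = g (g⁻¹ (k (g x)))
    exact (g.apply_symm_apply _).symm
  have h2 : g (ζ : Qb) = (ζ : Qb) ^ ω (res K g) := by
    rw [← coe_res, hω]
    rfl
  rw [h1, h _ (conj_mem_fix K g hk), map_mul, map_pow, h2, ← D.F_conj g k hk y,
    zp_natmul (coe_prim hζ), ← pow_mul, ← pow_mul, mul_comm (ω (res K g))]

theorem ty_unique {x : Qb} (hx : x ≠ 0) {y y' : R} (h : D.Ty ζ x y) (h' : D.Ty ζ x y') :
    ∀ k ∈ K.fixingSubgroup, D.F k y = D.F k y' := by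
  intro k hk
  have := (h k hk).symm.trans (h' k hk)
  exact zp_inj (coe_prim hζ) (mul_right_cancel₀ hx this)

omit hζ in
theorem nondeg {y : R} (hy : y ∈ Subring.closure (Set.range D.ψ))
    (h : ∀ k ∈ K.fixingSubgroup, D.F k y = 0) : y = 0 := by
  by_contra hy0
  obtain ⟨n, hn, hyn⟩ := D.fo y hy hy0
  have key : ∀ z ∈ Subring.closure (Set.range D.ψ), ∀ y' : R,
      (∀ k ∈ K.fixingSubgroup, D.F k y' = 0) → ∀ k ∈ K.fixingSubgroup, D.F k (z * y') = 0 := by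
    intro z hz
    induction hz using Subring.closure_induction with
    | mem z hz =>
      obtain ⟨σ, rfl⟩ := hz
      intro y' hy' k hk
      obtain ⟨g, rfl⟩ := AlgEquiv.restrictNormalHom_surjective (F := ℚ) (K₁ := K) Qb σ
      change D.F k (D.ψ (res K g) * y') = 0
      rw [← D.F_conj g k hk y', hy' _ (conj_mem_fix K g hk), mul_zero]
    | zero => intro y' _ k _; rw [zero_mul, map_zero]
    | one => intro y' hy' k hk; rw [one_mul, hy' k hk]
    | add a b _ _ ha hb =>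
      intro y' hy' k hk
      rw [add_mul, map_add, ha y' hy' k hk, hb y' hy' k hk, add_zero]
    | neg a _ ha =>
      intro y' hy' k hk
      rw [neg_mul, map_neg, ha y' hy' k hk, neg_zero]
    | mul a b _ _ ha hb =>
      intro y' hy' k hk
      rw [mul_assoc]
      exact ha _ (hb y' hy') k hk
  obtain ⟨k, hk, hne⟩ := D.ne
  apply hne
  have := key (y ^ (n - 1)) (Subring.pow_mem _ hy _) y h k hk
  rwa [← pow_succ, Nat.sub_add_cancel hn, hyn] at this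

/-- existence of a Kummer generator -/
theorem exists_beta (M : IntermediateField ℚ Qb) [FiniteDimensional ℚ M] [IsGalois ℚ M]
    (hM : ∀ k ∈ K.fixingSubgroup ⊓ M.fixingSubgroup, ∀ y, D.F k y = 0) :
    ∃ β : Qb, β ≠ 0 ∧ D.Ty ζ β 1 := by
  have hζ' := coe_prim hζ
  -- `F 1 y = 0`
  have F_one : ∀ y, D.F 1 y = 0 := fun y => hM 1 (Subgroup.one_mem _) y
  have F_pow : ∀ k ∈ K.fixingSubgroup, ∀ (n : ℕ) (y : R), D.F (k ^ n) y = n * D.F k y := by
    intro k hk n y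
    induction n with
    | zero => rw [pow_zero, F_one, Nat.cast_zero, zero_mul]
    | succ n ih =>
      rw [pow_succ, D.F_mul _ (Subgroup.pow_mem _ hk n) _ hk, ih, Nat.cast_succ, add_mul, one_mul]
  have F_inv : ∀ k ∈ K.fixingSubgroup, ∀ y : R, D.F k⁻¹ y = - D.F k y := by
    intro k hk y
    have := D.F_mul k⁻¹ (Subgroup.inv_mem _ hk) k hk y
    rw [inv_mul_cancel, F_one] at this
    exact eq_neg_of_add_eq_zero_left this.symm
  -- an element with value one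
  obtain ⟨k₁, hk₁, hF₁⟩ : ∃ k ∈ K.fixingSubgroup, D.F k 1 = 1 := by
    obtain ⟨k, hk, hne⟩ := D.ne
    refine ⟨k ^ ((D.F k 1)⁻¹).val, Subgroup.pow_mem _ hk _, ?_⟩
    rw [F_pow k hk, ZMod.natCast_zmod_val, inv_mul_cancel₀ hne]
  -- the kernel
  let H : Subgroup GQ :=
    { carrier := {k | k ∈ K.fixingSubgroup ∧ D.F k 1 = 0}
      one_mem' := ⟨Subgroup.one_mem _, F_one 1⟩
      mul_mem' := by
        rintro a b ⟨ha, ha'⟩ ⟨hb, hb'⟩
        exact ⟨Subgroup.mul_mem _ ha hb, by rw [D.F_mul a ha b hb, ha', hb', add_zero]⟩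
      inv_mem' := by
        rintro a ⟨ha, ha'⟩
        exact ⟨Subgroup.inv_mem _ ha, by rw [F_inv a ha, ha', neg_zero]⟩ }
  have hHmem : ∀ k, k ∈ H ↔ k ∈ K.fixingSubgroup ∧ D.F k 1 = 0 := fun k => Iff.rfl
  have hHopen : IsOpen (H : Set GQ) := by
    apply Subgroup.isOpen_mono (H₁ := K.fixingSubgroup ⊓ M.fixingSubgroup)
    · intro k hk
      exact ⟨hk.1, hM k hk 1⟩
    · exact IsOpen.inter (IntermediateField.fixingSubgroup_isOpen K)
        (IntermediateField.fixingSubgroup_isOpen M)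
  have hHclosed : IsClosed (H : Set GQ) := Subgroup.isClosed_of_isOpen H hHopen
  have hfix : (IntermediateField.fixedField H).fixingSubgroup = H := by
    have := InfiniteGalois.fixingSubgroup_fixedField (k := ℚ) (K := Qb) ⟨H, hHclosed⟩
    exact this
  have hconj : ∀ k ∈ K.fixingSubgroup, ∀ h ∈ H, k⁻¹ * h * k ∈ H := by
    intro k hk h hh
    refine ⟨Subgroup.mul_mem _ (Subgroup.mul_mem _ (Subgroup.inv_mem _ hk) hh.1) hk, ?_⟩
    rw [D.F_mul _ (Subgroup.mul_mem _ (Subgroup.inv_mem _ hk) hh.1) _ hk,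
      D.F_mul _ (Subgroup.inv_mem _ hk) _ hh.1, F_inv k hk, hh.2]
    ring
  -- the characters
  let L := IntermediateField.fixedField H
  let τ : Fin p → (L →* Qb) := fun i =>
    { toFun := fun x => (k₁ ^ (i : ℕ)) (x : Qb)
      map_one' := by simp
      map_mul' := by intro x y; simp }
  have hτ : Function.Injective τ := by
    have aux : ∀ i j : Fin p, i ≤ j → τ i = τ j → i = j := by
      intro i j hij h
      have h1 : (k₁ ^ (i : ℕ))⁻¹ * k₁ ^ (j : ℕ) ∈ L.fixingSubgroup := by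
        rw [IntermediateField.mem_fixingSubgroup_iff]
        intro x hx
        have h2 : (k₁ ^ (i : ℕ)) x = (k₁ ^ (j : ℕ)) x := DFunLike.congr_fun h ⟨x, hx⟩
        change (k₁ ^ (i : ℕ))⁻¹ ((k₁ ^ (j : ℕ)) x) = x
        rw [← h2]
        exact (k₁ ^ (i : ℕ)).symm_apply_apply x
      rw [hfix, hHmem, D.F_mul _ (Subgroup.inv_mem _ (Subgroup.pow_mem _ hk₁ _)) _
        (Subgroup.pow_mem _ hk₁ _), F_inv _ (Subgroup.pow_mem _ hk₁ _), F_pow _ hk₁, F_pow _ hk₁,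
        hF₁, mul_one, mul_one] at h1
      have h3 : ((i : ℕ) : ZMod p) = ((j : ℕ) : ZMod p) := by
        have := h1.2
        linear_combination -this
      rw [ZMod.natCast_eq_natCast_iff'] at h3
      rw [Nat.mod_eq_of_lt i.2, Nat.mod_eq_of_lt j.2] at h3
      exact Fin.ext h3
    intro i j h
    rcases le_total i j with hij | hij
    · exact aux i j hij h
    · exact (aux j i hij h.symm).symm
  have hli : LinearIndependent Qb (fun i : Fin p => (τ i : L → Qb)) :=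
    (linearIndependent_monoidHom L Qb).comp τ hτ
  obtain ⟨θ, hθ⟩ : ∃ θ : L, ∑ i : Fin p, ((ζ : Qb)⁻¹) ^ (i : ℕ) * (k₁ ^ (i : ℕ)) (θ : Qb) ≠ 0 := by
    by_contra hcon
    push_neg at hcon
    rw [Fintype.linearIndependent_iff] at hli
    have := hli (fun i => ((ζ : Qb)⁻¹) ^ (i : ℕ)) (by
      funext θ
      rw [Finset.sum_apply]
      exact hcon θ) ⟨0, hp.out.pos⟩
    simp at this
  refine ⟨∑ i ∈ Finset.range p, ((ζ : Qb)⁻¹) ^ i * (k₁ ^ i) (θ : Qb), ?_, ?_⟩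
  · rw [Finset.sum_range]
    exact hθ
  set β : Qb := ∑ i ∈ Finset.range p, ((ζ : Qb)⁻¹) ^ i * (k₁ ^ i) (θ : Qb) with hβ
  have hζ0 : (ζ : Qb) ≠ 0 := hζ'.ne_zero hp.out.ne_zero
  have hkζ : ∀ k ∈ K.fixingSubgroup, k (ζ : Qb) = (ζ : Qb) := fun k hk =>
    (IntermediateField.mem_fixingSubgroup_iff K k).1 hk _ ζ.2
  have hHθ : ∀ h ∈ H, h (θ : Qb) = θ := by
    intro h hh
    exact (IntermediateField.mem_fixedField_iff H _).1 θ.2 h hh
  have hHβ : ∀ h ∈ H, h β = β := by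
    intro h hh
    rw [hβ, map_sum]
    refine Finset.sum_congr rfl fun i _ => ?_
    rw [map_mul, map_pow, map_inv₀, hkζ h hh.1]
    congr 1
    have h1 := hHθ _ (hconj (k₁ ^ i) (Subgroup.pow_mem _ hk₁ i) h hh)
    have h2 : h ((k₁ ^ i) (θ : Qb)) = (k₁ ^ i) (((k₁ ^ i)⁻¹ * h * k₁ ^ i) (θ : Qb)) := by
      change h ((k₁ ^ i) (θ : Qb)) = (k₁ ^ i) ((k₁ ^ i)⁻¹ (h ((k₁ ^ i) (θ : Qb))))
      exact ((k₁ ^ i).apply_symm_apply _).symm
    rw [h2, h1]
  have hk₁β : k₁ β = ζ * β := by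
    have h1 : k₁ β = ζ * ∑ i ∈ Finset.range p, ((ζ : Qb)⁻¹) ^ (i + 1) * (k₁ ^ (i + 1)) (θ : Qb) := by
      rw [hβ, map_sum, Finset.mul_sum]
      refine Finset.sum_congr rfl fun i _ => ?_
      rw [map_mul, map_pow, map_inv₀, hkζ k₁ hk₁, pow_succ' k₁ i, pow_succ' ((ζ : Qb)⁻¹) i]
      change _ * k₁ ((k₁ ^ i) (θ : Qb)) = ζ * (_ * k₁ ((k₁ ^ i) (θ : Qb)))
      field_simp
    rw [h1]
    congr 1
    have h2 := Finset.sum_range_succ (fun i => ((ζ : Qb)⁻¹) ^ i * (k₁ ^ i) (θ : Qb)) p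
    rw [Finset.sum_range_succ'] at h2
    have h3 : ((ζ : Qb)⁻¹) ^ p * (k₁ ^ p) (θ : Qb) = ((ζ : Qb)⁻¹) ^ 0 * (k₁ ^ 0) (θ : Qb) := by
      have h4 : k₁ ^ p ∈ H := ⟨Subgroup.pow_mem _ hk₁ _, by rw [F_pow _ hk₁, CharP.cast_eq_zero, zero_mul]⟩
      rw [hHθ _ h4, inv_pow, hζ'.pow_eq_one]
      simp
    rw [h3] at h2
    exact add_right_cancel h2
  have hpowβ : ∀ n : ℕ, (k₁ ^ n) β = (ζ : Qb) ^ n * β := by
    intro n
    induction n with
    | zero => simp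
    | succ n ih =>
      rw [pow_succ' k₁]
      change k₁ ((k₁ ^ n) β) = _
      rw [ih, map_mul, map_pow, hkζ k₁ hk₁, hk₁β]
      ring
  intro k hk
  have h1 : (k₁ ^ (D.F k 1).val)⁻¹ * k ∈ H := by
    refine ⟨Subgroup.mul_mem _ (Subgroup.inv_mem _ (Subgroup.pow_mem _ hk₁ _)) hk, ?_⟩
    rw [D.F_mul _ (Subgroup.inv_mem _ (Subgroup.pow_mem _ hk₁ _)) _ hk,
      F_inv _ (Subgroup.pow_mem _ hk₁ _), F_pow _ hk₁, hF₁, mul_one, ZMod.natCast_zmod_val]
    ring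
  have h2 : k β = (k₁ ^ (D.F k 1).val) (((k₁ ^ (D.F k 1).val)⁻¹ * k) β) := by
    change k β = (k₁ ^ (D.F k 1).val) ((k₁ ^ (D.F k 1).val)⁻¹ (k β))
    exact ((k₁ ^ (D.F k 1).val).apply_symm_apply _).symm
  rw [h2, hHβ _ h1, hpowβ]

end KData

end Pool.Agent.Helper60.FM
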