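import Pool.Agent.Helper60.FM.MainB

/-!
# Main theorem
-/

open NumberField Pointwise Matrix

namespace Pool.Agent.Helper60.FM

variable (p : ℕ) [hp : Fact p.Prime] (K : IntermediateField ℚ Qb) [FiniteDimensional ℚ K]
  [IsAbelianGalois ℚ K]

theorem pow_mem_fix (g : GQ) : g ^ Module.finrank ℚ K ∈ K.fixingSubgroup := by
  rw [mem_fix_iff_res, map_pow, ← IsGalois.card_aut_eq_finrank]
  exact pow_card_eq_one'

theorem res_continuous : Continuous (res K) := by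
  rw [continuous_discrete_rng]
  intro b
  obtain ⟨g, hg⟩ := AlgEquiv.restrictNormalHom_surjective (F := ℚ) (K₁ := K) Qb b
  have h1 : (res K) ⁻¹' {b} = (fun x => g⁻¹ * x) ⁻¹' (K.fixingSubgroup : Set GQ) := by
    ext x
    simp only [Set.mem_preimage, Set.mem_singleton_iff, SetLike.mem_coe]
    rw [mem_fix_iff_res, map_mul, map_inv, inv_mul_eq_one]
    constructor
    · intro h
      rw [h]
      exact hg
    · intro h
      rw [← h]
      exact hg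
  rw [h1]
  exact (IntermediateField.fixingSubgroup_isOpen K).preimage (continuous_const_mul _)

/-- A homomorphism with values in a group of order `p`, trivial on `Gal(Qb/K)`, is trivial if
`p ∤ [K : ℚ]`. -/
theorem hom_trivial (hpK : ¬ p ∣ Module.finrank ℚ K) (φ : GQ →* Multiplicative (ZMod p)) (g : GQ)
    (h : φ (g ^ Module.finrank ℚ K) = 1) : φ g = 1 := by
  have h1 : (Module.finrank ℚ K : ZMod p) * Multiplicative.toAdd (φ g) = 0 := by
    rw [← nsmul_eq_mul, ← toAdd_pow, ← map_pow, h, toAdd_one]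
  rcases mul_eq_zero.1 h1 with h2 | h2
  · exact absurd ((ZMod.natCast_eq_zero_iff _ _).1 h2) hpK
  · exact Multiplicative.toAdd.injective (by rw [h2, toAdd_one])

/-- A homomorphism `φ : GQ → ℤ/p`, cut out by a field which is unramified outside `S`, is given
on `Gal(Qb/K)` by a root of unity. -/
theorem root_of_hom (hp2 : p ≠ 2)
    (ζ : K) (hζ : IsPrimitiveRoot ζ p) (ω : Gal(K/ℚ) → ℕ) (hω : ∀ σ, σ ζ = ζ ^ ω σ)
    (S : Set ℕ)
    (hdec : ∀ P : Ideal (𝓞 K), P.IsPrime → P ≠ ⊥ → (∃ ℓ ∈ S, (ℓ : 𝓞 K) ∈ P) →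
      ∃ σ : Gal(K/ℚ), σ • P = P ∧ (ω σ : ZMod p) ≠ 1)
    (hcl : ∀ 𝔞 : Ideal (𝓞 K), 𝔞 ≠ ⊥ → (𝔞 ^ p).IsPrincipal →
      (∀ n : Gal(K/ℚ) → ℕ, ∑ σ, (n σ : ZMod p) * (ω σ : ZMod p) = 0 →
        (∏ σ, (σ • 𝔞) ^ n σ).IsPrincipal) → 𝔞.IsPrincipal)
    (φ : GQ →* Multiplicative (ZMod p)) (hφ : Continuous φ)
    (hunr : ∀ ℓ : ℕ, ℓ.Prime → ℓ ∉ S → UnramAt φ ℓ)
    (hne : ∃ k ∈ K.fixingSubgroup, φ k ≠ 1) :
    ∃ (η : Qb) (m : ℕ), 0 < m ∧ η ^ m = 1 ∧ ∀ k ∈ K.fixingSubgroup,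
      k η = (ζ : Qb) ^ (2 * Multiplicative.toAdd (φ k) : ZMod p).val * η := by
  classical
  have hpR : ((p : ℕ) : ZMod p) = 0 := ZMod.natCast_self p
  have hcm : IsCMField K := by
    have : IsTotallyComplex K := isTotallyComplex_of_prim
      (lt_of_le_of_ne hp.out.two_le (Ne.symm hp2)) K ζ hζ
    infer_instance
  let D : KData p K ω (ZMod p) :=
    { ψ := omHom hζ hω hpR
      F := fun k => AddMonoidHom.mulRight (Multiplicative.toAdd (φ k))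
      F_mul := by
        intro k _ k' _ y
        change y * Multiplicative.toAdd (φ (k * k')) =
          y * Multiplicative.toAdd (φ k) + y * Multiplicative.toAdd (φ k')
        rw [map_mul, toAdd_mul, mul_add]
      F_conj := by
        intro g k _ y
        change (ω (res K g) : ZMod p) * (y * Multiplicative.toAdd (φ (g⁻¹ * k * g))) =
          ((ω (res K g) : ZMod p) * y) * Multiplicative.toAdd (φ k)
        have : φ (g⁻¹ * k * g) = φ k := by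
          rw [map_mul, map_mul, map_inv, mul_comm, mul_inv_cancel_left]
        rw [this, mul_assoc]
      ne := by
        obtain ⟨k, hk, hk1⟩ := hne
        refine ⟨k, hk, fun h => hk1 ?_⟩
        change 1 * Multiplicative.toAdd (φ k) = 0 at h
        rw [one_mul] at h
        exact Multiplicative.toAdd.injective (by rw [h, toAdd_one])
      fo := by
        intro z _ hz0
        exact ⟨p - 1, Nat.sub_pos_of_lt hp.out.one_lt, ZMod.pow_card_sub_one_eq_one hz0⟩ }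
  have hDψ : ∀ σ, D.ψ σ = (ω σ : ZMod p) := fun σ => rfl
  have hNopen : IsOpen (φ.ker : Set GQ) := by
    have h1 : (φ.ker : Set GQ) = φ ⁻¹' {1} := rfl
    rw [h1]
    exact (isOpen_discrete _).preimage hφ
  obtain ⟨hfd, hgal, hfix⟩ := open_field φ.ker hNopen
  set M := IntermediateField.fixedField φ.ker with hMdef
  obtain ⟨η, m, hm, hηm, hty⟩ := D.exists_eta (ζ := ζ) hp2 hζ hω
    (by
      intro c hc
      rw [hDψ]
      exact omega_conj hζ hω hpR c hc)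
    M
    (by
      intro k hk y
      have : k ∈ φ.ker := by
        rw [← hfix]
        exact hk.2
      change y * Multiplicative.toAdd (φ k) = 0
      rw [MonoidHom.mem_ker.1 this, toAdd_one, mul_zero])
    S
    (by
      intro ℓ hℓ hℓS
      refine hunr ℓ hℓ hℓS M hfd hgal ?_
      rw [hfix])
    hdec hcl
  exact ⟨η, m, hm, hηm, hty⟩

variable {E : Type*} [NormedField E] [IsUltrametricDist E] [CompleteSpace E] [NormedAlgebra ℚ_[p] E]

theorem main_scalar (hp2 : p ≠ 2)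
    (ζ : K) (hζ : IsPrimitiveRoot ζ p) (ω : Gal(K/ℚ) → ℕ) (hω : ∀ σ, σ ζ = ζ ^ ω σ)
    (χ₁ χ₂ : Gal(K/ℚ) →* Eˣ) (S : Set ℕ)
    (hdec : ∀ P : Ideal (𝓞 K), P.IsPrime → P ≠ ⊥ → (∃ ℓ ∈ S, (ℓ : 𝓞 K) ∈ P) →
      ∃ σ : Gal(K/ℚ), σ • P = P ∧ 1 ≤ ‖(ω σ : E) * χ₂ σ - χ₁ σ‖)
    (hcl : ∀ 𝔞 : Ideal (𝓞 K), 𝔞 ≠ ⊥ → (𝔞 ^ p).IsPrincipal →
      (∀ n : Gal(K/ℚ) → ℕ, ‖∑ σ, (n σ : E) * (ω σ * (χ₂ σ * (χ₁ σ)⁻¹ : Eˣ))‖ < 1 →
        (∏ σ, (σ • 𝔞) ^ n σ).IsPrincipal) → 𝔞.IsPrincipal)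
    (hχ : ∀ σ, ‖(χ₁ σ : E) - χ₂ σ‖ < 1) (hpK : ¬ p ∣ Module.finrank ℚ K)
    (V : GQ →* GL (Fin 2) E) (hV : Continuous V)
    (htr : ∀ g, ‖trace (V g : Matrix (Fin 2) (Fin 2) E) - χ₁ (res K g) - χ₂ (res K g)‖ < 1)
    (hunr : ∀ ℓ : ℕ, ℓ.Prime → ℓ ∉ S → UnramAt V ℓ) :
    ∀ g h, V g * V h = V h * V g := by
  classical
  have hn₁ : ∀ σ, ‖(χ₁ σ : E)‖ = 1 := norm_chi χ₁
  have hn₂ : ∀ σ, ‖(χ₂ σ : E)‖ = 1 := norm_chi χ₂
  have hrc : Continuous (res K) := res_continuous K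
  refine comm_of_scalar p hp2 V hV (χ₁.comp (res K)) ⟨Module.finrank ℚ K, hpK, fun g => ?_⟩
    ?_ (fun g => ?_) ?_
  · rw [MonoidHom.comp_apply, ← map_pow, ← map_pow,
      (mem_fix_iff_res K _).1 (pow_mem_fix K g), map_one]
  · have h1 : Continuous (χ₁ : Gal(K/ℚ) → Eˣ) := continuous_of_discreteTopology
    exact h1.comp hrc
  · have h1 := norm_add_lt_one E (htr g) (y := χ₂ (res K g) - χ₁ (res K g))
      (by rw [norm_sub_rev]; exact hχ _)
    have h2 : trace (V g : Matrix (Fin 2) (Fin 2) E) - 2 * ((χ₁.comp (res K)) g : E) =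
        trace (V g : Matrix (Fin 2) (Fin 2) E) - χ₁ (res K g) - χ₂ (res K g) +
          (χ₂ (res K g) - χ₁ (res K g)) := by
      rw [MonoidHom.comp_apply]
      ring
    rw [h2]
    exact h1
  · intro φ₁ φ₂ hc₁ hc₂ hk₁ hk₂
    have hdec' : ∀ P : Ideal (𝓞 K), P.IsPrime → P ≠ ⊥ → (∃ ℓ ∈ S, (ℓ : 𝓞 K) ∈ P) →
        ∃ σ : Gal(K/ℚ), σ • P = P ∧ (ω σ : ZMod p) ≠ 1 := by
      intro P hP hP0 hℓ
      obtain ⟨σ, hσ, hσ1⟩ := hdec P hP hP0 hℓ
      refine ⟨σ, hσ, fun hcon => ?_⟩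
      have e1 : ‖(ω σ : E) - 1‖ < 1 := by
        have e2 : (p : ℤ) ∣ (ω σ : ℤ) - 1 := by
          rw [← ZMod.intCast_zmod_eq_zero_iff_dvd] 
          push_cast
          rw [hcon, sub_self]
        obtain ⟨d, hd⟩ := e2
        have e3 : (ω σ : E) - 1 = (p : E) * (d : E) := by
          have := congrArg (fun z : ℤ => (z : E)) hd
          push_cast at this
          exact this
        rw [e3, norm_mul]
        exact mul_lt_one_of_nonneg_of_lt_one_left (norm_nonneg _)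
          ((norm_natCast_lt_one_iff (p := p) p).2 dvd_rfl)
          (IsUltrametricDist.norm_intCast_le_one E d)
      have e4 := mul_sub_mul_lt (E := E) (x := (ω σ : E)) (x' := 1) (y := (χ₂ σ : E))
        (y' := (χ₁ σ : E)) (norm_natCast_le_one _) (hn₁ σ).le e1
        (by rw [norm_sub_rev]; exact hχ σ)
      rw [one_mul] at e4
      exact absurd e4 (not_lt.2 hσ1)
    have hcl' : ∀ 𝔞 : Ideal (𝓞 K), 𝔞 ≠ ⊥ → (𝔞 ^ p).IsPrincipal →
        (∀ n : Gal(K/ℚ) → ℕ, ∑ σ, (n σ : ZMod p) * (ω σ : ZMod p) = 0 →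
          (∏ σ, (σ • 𝔞) ^ n σ).IsPrincipal) → 𝔞.IsPrincipal := by
      intro 𝔞 h𝔞 h𝔞p h
      refine hcl 𝔞 h𝔞 h𝔞p (fun n hn => h n ?_)
      have e1 : ‖((∑ σ, n σ * ω σ : ℕ) : E)‖ < 1 := by
        have e2 : ((∑ σ, n σ * ω σ : ℕ) : E) =
            ∑ σ, (n σ : E) * (ω σ * (χ₂ σ * (χ₁ σ)⁻¹ : Eˣ)) +
              ∑ σ, (n σ : E) * (ω σ * (1 - (χ₂ σ * (χ₁ σ)⁻¹ : Eˣ))) := by
          rw [← Finset.sum_add_distrib]
          push_cast
          refine Finset.sum_congr rfl (fun σ _ => ?_)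
          ring
        rw [e2]
        refine norm_add_lt_one E hn ?_
        have e3 : ∀ s : Finset Gal(K/ℚ),
            ‖∑ σ ∈ s, (n σ : E) * (ω σ * (1 - (χ₂ σ * (χ₁ σ)⁻¹ : Eˣ)))‖ < 1 := by
          intro s
          induction s using Finset.induction_on with
          | empty => simp
          | insert a s ha ih =>
            rw [Finset.sum_insert ha]
            refine norm_add_lt_one E ?_ ih
            have e4 : ‖(1 : E) - (χ₂ a * (χ₁ a)⁻¹ : Eˣ)‖ < 1 := by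
              have e5 : (1 : E) - (χ₂ a * (χ₁ a)⁻¹ : Eˣ) =
                  ((χ₁ a : E) - χ₂ a) * ((χ₁ a)⁻¹ : Eˣ) := by
                rw [sub_mul, ← Units.val_mul, mul_inv_cancel, Units.val_one, Units.val_mul]
              rw [e5, norm_mul, ← map_inv, hn₁, mul_one]
              exact hχ a
            rw [norm_mul, norm_mul]
            exact mul_lt_one_of_nonneg_of_lt_one_right (norm_natCast_le_one _)
              (mul_nonneg (norm_nonneg _) (norm_nonneg _))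
              (mul_lt_one_of_nonneg_of_lt_one_right (norm_natCast_le_one _) (norm_nonneg _) e4)
        exact e3 _
      have e6 := (norm_natCast_lt_one_iff (p := p) (E := E) _).1 e1
      have e7 := (ZMod.natCast_eq_zero_iff _ _).2 e6
      push_cast at e7
      exact e7
    have hunr' : ∀ φ : GQ →* Multiplicative (ZMod p), V.ker ≤ φ.ker →
        ∀ ℓ : ℕ, ℓ.Prime → ℓ ∉ S → UnramAt φ ℓ := by
      intro φ hφ ℓ hℓ hℓS M hM hM' hM''
      exact hunr ℓ hℓ hℓS M hM hM' (hφ.trans hM'')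
    by_cases hne₁ : ∃ k ∈ K.fixingSubgroup, φ₁ k ≠ 1
    · by_cases hne₂ : ∃ k ∈ K.fixingSubgroup, φ₂ k ≠ 1
      · obtain ⟨η₁, m₁, hm₁, hη₁, ht₁⟩ := root_of_hom p K hp2 ζ hζ ω hω S hdec' hcl' φ₁ hc₁
          (hunr' φ₁ hk₁) hne₁
        obtain ⟨η₂, m₂, hm₂, hη₂, ht₂⟩ := root_of_hom p K hp2 ζ hζ ω hω S hdec' hcl' φ₂ hc₂
          (hunr' φ₂ hk₂) hne₂
        have h2 : (2 : ZMod p) ≠ 0 := by
          intro h
          have h3 : ((2 : ℕ) : ZMod p) = 0 := by exact_mod_cast h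
          have h4 := (ZMod.natCast_eq_zero_iff _ _).1 h3
          exact hp2 ((Nat.prime_dvd_prime_iff_eq hp.out Nat.prime_two).1 h4)
        have key : ∀ φ φ' : GQ →* Multiplicative (ZMod p),
            (∀ k ∈ K.fixingSubgroup, 2 * Multiplicative.toAdd (φ k) = (0 : ZMod p) →
              2 * Multiplicative.toAdd (φ' k) = (0 : ZMod p)) → φ.ker ≤ φ'.ker := by
          intro φ φ' h g hg
          rw [MonoidHom.mem_ker] at hg ⊢
          apply hom_trivial p K hpK φ' g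
          have h3 : φ (g ^ Module.finrank ℚ K) = 1 := by rw [map_pow, hg, one_pow]
          have h4 := h _ (pow_mem_fix K g) (by rw [h3, toAdd_one, mul_zero])
          have h5 := (mul_eq_zero.1 h4).resolve_left h2
          exact Multiplicative.toAdd.injective (by rw [h5, toAdd_one])
        rcases comparable_of_roots K ζ hζ (fun g => 2 * Multiplicative.toAdd (φ₁ g))
          (fun g => 2 * Multiplicative.toAdd (φ₂ g)) η₁ η₂ (m₁ * m₂) (Nat.mul_pos hm₁ hm₂)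
          (by rw [pow_mul, hη₁, one_pow]) (by rw [mul_comm, pow_mul, hη₂, one_pow]) ht₁ ht₂
          with h | h
        · exact Or.inl (key φ₁ φ₂ h)
        · exact Or.inr (key φ₂ φ₁ h)
      · left
        push Not at hne₂
        intro g _
        rw [MonoidHom.mem_ker]
        exact hom_trivial p K hpK φ₂ g (hne₂ _ (pow_mem_fix K g))
    · right
      push Not at hne₁
      intro g _
      rw [MonoidHom.mem_ker]
      exact hom_trivial p K hpK φ₁ g (hne₁ _ (pow_mem_fix K g))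

theorem main (hp2 : p ≠ 2)
    (ζ : K) (hζ : IsPrimitiveRoot ζ p) (ω : Gal(K/ℚ) → ℕ) (hω : ∀ σ, σ ζ = ζ ^ ω σ)
    (χ₁ χ₂ : Gal(K/ℚ) →* Eˣ) (S : Set ℕ)
    (hdec : ∀ P : Ideal (𝓞 K), P.IsPrime → P ≠ ⊥ → (∃ ℓ ∈ S, (ℓ : 𝓞 K) ∈ P) →
      ∃ σ : Gal(K/ℚ), σ • P = P ∧ 1 ≤ ‖(ω σ : E) * χ₂ σ - χ₁ σ‖)
    (hcl : ∀ 𝔞 : Ideal (𝓞 K), 𝔞 ≠ ⊥ → (𝔞 ^ p).IsPrincipal →
      (∀ n : Gal(K/ℚ) → ℕ, ‖∑ σ, (n σ : E) * (ω σ * (χ₂ σ * (χ₁ σ)⁻¹ : Eˣ))‖ < 1 →
        (∏ σ, (σ • 𝔞) ^ n σ).IsPrincipal) → 𝔞.IsPrincipal)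
    (hχ : (∃ σ, 1 ≤ ‖(χ₁ σ : E) - χ₂ σ‖) ∨ ¬ p ∣ Module.finrank ℚ K)
    (V : GQ →* GL (Fin 2) E) (hV : Continuous V)
    (htr : ∀ g, ‖trace (V g : Matrix (Fin 2) (Fin 2) E) - χ₁ (res K g) - χ₂ (res K g)‖ < 1)
    (hunr : ∀ ℓ : ℕ, ℓ.Prime → ℓ ∉ S → UnramAt V ℓ)
    (heven : ∀ c : GQ, IsCC c → det (V c : Matrix (Fin 2) (Fin 2) E) = 1) :
    (∃ v : Fin 2 → E, v ≠ 0 ∧ ∀ g, ∃ c : E, (V g : Matrix (Fin 2) (Fin 2) E) *ᵥ v = c • v) ∨
      (∀ g h, V g * V h = V h * V g) := by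
  by_cases h : ∃ σ, 1 ≤ ‖(χ₁ σ : E) - χ₂ σ‖
  · exact Or.inl (main_distinct p K hp2 ζ hζ ω hω χ₁ χ₂ S hdec hcl h V hV htr hunr heven)
  · right
    have hpK := hχ.resolve_left h
    push Not at h
    exact main_scalar p K hp2 ζ hζ ω hω χ₁ χ₂ S hdec hcl h hpK V hV htr hunr

end Pool.Agent.Helper60.FM
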