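import Mathlib

/-!
# Even residually reducible Galois representations: definitions

`Qb` is an algebraic closure of `ℚ`, `GQ` its Galois group (with the Krull topology).
-/

open NumberField Pointwise

namespace Pool.Agent.Helper60.FM

/-- An algebraic closure of `ℚ`. -/
abbrev Qb : Type := AlgebraicClosure ℚ

/-- The absolute Galois group of `ℚ`, with the Krull topology. -/
abbrev GQ : Type := Gal(Qb/ℚ)

instance instAlgebraicQb : Algebra.IsAlgebraic ℚ Qb := by
  have h := @AlgebraicClosure.isAlgebraic ℚ _
  have e : (DivisionRing.toRatAlgebra : Algebra ℚ (AlgebraicClosure ℚ)) =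
      AlgebraicClosure.instAlgebra ℚ := Subsingleton.elim _ _
  rw [e]
  exact h

instance instAlgClosureQb : IsAlgClosure ℚ Qb := ⟨inferInstance, inferInstance⟩

noncomputable instance (K : IntermediateField ℚ Qb) [FiniteDimensional ℚ K] : NumberField K := {}

/-- All inertia groups of the finite Galois extension `M/ℚ` at the primes above `ℓ` are trivial. -/
def Unr (M : IntermediateField ℚ Qb) (ℓ : ℕ) : Prop :=
  ∀ P : Ideal (𝓞 M), P.IsPrime → (ℓ : 𝓞 M) ∈ P →
    ∀ σ : Gal(M/ℚ), (∀ x : 𝓞 M, σ • x - x ∈ P) → σ = 1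

/-- `V` is unramified at the prime number `ℓ`: every finite Galois extension `M/ℚ` contained in
the field cut out by `V` is unramified at `ℓ`, that is, its inertia groups at the primes above
`ℓ` are trivial. -/
def UnramAt {H : Type*} [Group H] (V : GQ →* H) (ℓ : ℕ) : Prop :=
  ∀ M : IntermediateField ℚ Qb, FiniteDimensional ℚ M → IsGalois ℚ M →
    V.ker ≤ M.fixingSubgroup → Unr M ℓ

/-- restriction to a normal subfield -/
noncomputable abbrev res (K : IntermediateField ℚ Qb) [Normal ℚ K] : GQ →* Gal(K/ℚ) :=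
  AlgEquiv.restrictNormalHom K

/-- `c` is a complex conjugation of `ℚ̄`. -/
def IsCC (c : GQ) : Prop := ∃ ι : Qb →+* ℂ, ∀ x, ι (c x) = starRingEnd ℂ (ι x)

end Pool.Agent.Helper60.FM
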